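import Mathlib

/-!
# Connected sets, private neighbours, PSD forts
-/

set_option linter.unusedSectionVars false

namespace R91.PSD

universe u

variable {V : Type u} [Fintype V] [DecidableEq V] (G : SimpleGraph V)

/-- equal or adjacent -/
def near (x y : V) : Prop := x = y ∨ G.Adj x y

/-- connected nonempty sets (cut form) -/
def Conn (W : Finset V) : Prop :=
  W.Nonempty ∧ ∀ A ⊆ W, A.Nonempty → (∀ a ∈ A, ∀ b ∈ W, G.Adj a b → b ∈ A) → A = W

/-- `b ∉ W` and `w` is the only neighbour of `b` in `W` -/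
def Priv (W : Finset V) (w b : V) : Prop := b ∉ W ∧ w ∈ W ∧ ∀ x ∈ W, (G.Adj b x ↔ x = w)

/-- PSD forts -/
def Fort (F : Finset V) : Prop := Conn G F ∧ ∀ w b, ¬ Priv G F w b

/-- sets containing no fort -/
def Ind (W : Finset V) : Prop := ∀ F ⊆ W, ¬ Fort G F

/-- the property (P) -/
def PP : Prop := ∀ W, Conn G W → Ind G W → ∀ w ∈ W, ∃ b, Priv G W w b

structure Nice : Prop where
  conn : Conn G Finset.univ
  two : ∃ x y : V, x ≠ y
  pp : PP G

variable {G}

theorem near_refl (x : V) : near G x x := Or.inl rfl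

theorem near.symm {x y : V} (h : near G x y) : near G y x := by
  rcases h with h | h
  · exact Or.inl h.symm
  · exact Or.inr h.symm

theorem near_comm {x y : V} : near G x y ↔ near G y x := ⟨near.symm, near.symm⟩

theorem near.adj {x y : V} (h : near G x y) (hne : x ≠ y) : G.Adj x y := by
  rcases h with h | h
  · exact absurd h hne
  · exact h

theorem Ind.mono {W W' : Finset V} (h : Ind G W) (hs : W' ⊆ W) : Ind G W' :=
  fun F hF => h F (hF.trans hs)

theorem Conn.singleton (x : V) : Conn G {x} := by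
  refine ⟨⟨x, by simp⟩, ?_⟩
  intro A hA hne _
  rcases Finset.subset_singleton_iff.mp hA with h | h
  · rw [h] at hne; simp at hne
  · exact h

theorem Conn.insert {W : Finset V} (h : Conn G W) {v x : V} (hx : x ∈ W) (hvx : G.Adj v x) :
    Conn G (insert v W) := by
  refine ⟨⟨v, by simp⟩, ?_⟩
  intro A hA hne hcl
  have hxA : x ∈ A := by
    obtain ⟨y, hy⟩ := hne
    by_cases hyv : y = v
    · subst hyv
      exact hcl y hy x (Finset.mem_insert_of_mem hx) hvx
    · have hyW : y ∈ W := by
        rcases Finset.mem_insert.mp (hA hy) with h1 | h1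
        · exact absurd h1 hyv
        · exact h1
      have h2 : A ∩ W = W := by
        apply h.2 _ Finset.inter_subset_right ⟨y, Finset.mem_inter.mpr ⟨hy, hyW⟩⟩
        intro a ha b hb hab
        rw [Finset.mem_inter] at ha ⊢
        exact ⟨hcl a ha.1 b (Finset.mem_insert_of_mem hb) hab, hb⟩
      have h3 : x ∈ A ∩ W := by rw [h2]; exact hx
      exact (Finset.mem_inter.mp h3).1
  have hvA : v ∈ A := hcl x hxA v (by simp) hvx.symm
  have h2 : A ∩ W = W := by
    apply h.2 _ Finset.inter_subset_right ⟨x, Finset.mem_inter.mpr ⟨hxA, hx⟩⟩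
    intro a ha b hb hab
    rw [Finset.mem_inter] at ha ⊢
    exact ⟨hcl a ha.1 b (Finset.mem_insert_of_mem hb) hab, hb⟩
  apply Finset.Subset.antisymm hA
  intro y hy
  rcases Finset.mem_insert.mp hy with h1 | h1
  · rw [h1]; exact hvA
  · rw [← h2] at h1; exact (Finset.mem_inter.mp h1).1

/-- the cut property -/
theorem Conn.cut {W R : Finset V} (h : Conn G W) (hR : R ⊆ W) (hne : R.Nonempty) (hRW : R ≠ W) :
    ∃ r ∈ R, ∃ s ∈ W, s ∉ R ∧ G.Adj r s := by
  by_contra hcon
  push Not at hcon
  apply hRW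
  apply h.2 R hR hne
  intro a ha b hb hab
  by_contra hbR
  exact hcon a ha b hb hbR hab

theorem Conn.exists_nbr {W : Finset V} (h : Conn G W) {w y : V} (hw : w ∈ W) (hy : y ∈ W)
    (hne : w ≠ y) : ∃ x ∈ W, G.Adj w x := by
  obtain ⟨r, hr, s, hs, _, hrs⟩ := h.cut (R := {w}) (by simpa using hw) ⟨w, by simp⟩
    (by
      intro h1
      rw [← h1] at hy
      exact hne (Finset.mem_singleton.mp hy).symm)
  rw [Finset.mem_singleton] at hr
  subst hr
  exact ⟨s, hs, hrs⟩

/-- closed subsets contain every connected set they meet -/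
theorem Conn.subset_of_closed {K U C : Finset V} (hK : Conn G K) (hKU : K ⊆ U)
    (hcl : ∀ a ∈ C, ∀ b ∈ U, G.Adj a b → b ∈ C) {x : V} (hxK : x ∈ K) (hxC : x ∈ C) : K ⊆ C := by
  have h2 : C ∩ K = K := by
    apply hK.2 _ Finset.inter_subset_right ⟨x, Finset.mem_inter.mpr ⟨hxC, hxK⟩⟩
    intro a ha b hb hab
    rw [Finset.mem_inter] at ha ⊢
    exact ⟨hcl a ha.1 b (hKU hb) hab, hb⟩
  rw [← h2]
  exact Finset.inter_subset_left

theorem exists_comp (U : Finset V) {x : V} (hx : x ∈ U) :
    ∃ C ⊆ U, x ∈ C ∧ Conn G C ∧ ∀ a ∈ C, ∀ b ∈ U, G.Adj a b → b ∈ C := by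
  classical
  obtain ⟨C, hC, hmax⟩ := Finset.exists_max_image
    (U.powerset.filter (fun C => x ∈ C ∧ Conn G C)) Finset.card
    ⟨{x}, by
      rw [Finset.mem_filter, Finset.mem_powerset]
      exact ⟨by simpa using hx, by simp, Conn.singleton x⟩⟩
  rw [Finset.mem_filter, Finset.mem_powerset] at hC
  refine ⟨C, hC.1, hC.2.1, hC.2.2, ?_⟩
  intro a ha b hb hab
  by_contra hbC
  have h1 := hmax (insert b C) (by
    rw [Finset.mem_filter, Finset.mem_powerset]
    exact ⟨Finset.insert_subset hb hC.1, by simp [hC.2.1], hC.2.2.insert ha hab.symm⟩)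
  rw [Finset.card_insert_of_notMem hbC] at h1
  omega

theorem Conn.erase {F : Finset V} (hF : Conn G F) {p w : V} (hp : p ∈ F)
    (hne : (F.erase p).Nonempty) (hw : ∀ x ∈ F, G.Adj p x → x = w) : Conn G (F.erase p) := by
  refine ⟨hne, ?_⟩
  intro A hA hAne hcl
  by_contra hAF
  by_cases hwA : w ∈ A
  · -- the complement
    have h1 : (F.erase p) \ A = F := by
      apply hF.2
      · exact Finset.sdiff_subset.trans (Finset.erase_subset _ _)
      · rw [Finset.sdiff_nonempty]
        intro h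
        exact hAF (Finset.Subset.antisymm hA h)
      · intro x hx y hy hxy
        rw [Finset.mem_sdiff] at hx ⊢
        have hyp : y ≠ p := by
          rintro rfl
          have := hw x (Finset.mem_of_mem_erase hx.1) hxy.symm
          rw [this] at hx
          exact hx.2 hwA
        refine ⟨Finset.mem_erase.mpr ⟨hyp, hy⟩, ?_⟩
        intro hyA
        exact hx.2 (hcl y hyA x hx.1 hxy.symm)
    have : p ∈ (F.erase p) \ A := by rw [h1]; exact hp
    simp at this
  · have h1 : A = F := by
      apply hF.2 _ (hA.trans (Finset.erase_subset _ _)) hAne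
      intro x hx y hy hxy
      apply hcl x hx y _ hxy
      rw [Finset.mem_erase]
      refine ⟨?_, hy⟩
      rintro rfl
      have := hw x (Finset.mem_of_mem_erase (hA hx)) hxy.symm
      rw [this] at hx
      exact hwA hx
    have : p ∈ A := by rw [h1]; exact hp
    have := hA this
    simp at this

/-- closed twins -/
def Twins (G : SimpleGraph V) (x y : V) : Prop := ∀ z, near G z x ↔ near G z y

theorem Twins.symm' {x y : V} (h : Twins G x y) : Twins G y x := fun z => (h z).symm

theorem Twins.near {x y : V} (h : Twins G x y) : near G x y := (h x).mp (near_refl x)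

theorem Nice.ne_nbr (h : Nice G) (x : V) : ∃ y, y ≠ x ∧ G.Adj x y := by
  obtain ⟨a, b, hab⟩ := h.two
  obtain ⟨y, hy⟩ : ∃ y, y ≠ x := by
    by_cases ha : a = x
    · exact ⟨b, fun h => hab (ha.trans h.symm)⟩
    · exact ⟨a, ha⟩
  obtain ⟨z, _, hz⟩ := h.conn.exists_nbr (Finset.mem_univ x) (Finset.mem_univ y) hy.symm
  exact ⟨z, hz.ne', hz⟩

theorem not_fort_singleton (h : Nice G) (x : V) : ¬ Fort G {x} := by
  intro hF
  obtain ⟨y, hy, hxy⟩ := h.ne_nbr x
  apply hF.2 x y
  refine ⟨by simpa using hy, by simp, ?_⟩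
  intro z hz
  rw [Finset.mem_singleton] at hz
  subst hz
  simp [hxy.symm]

theorem ind_singleton (h : Nice G) (x : V) : Ind G {x} := by
  intro F hF hFf
  rcases Finset.subset_singleton_iff.mp hF with h1 | h1
  · rw [h1] at hFf
    exact absurd hFf.1.1 (by simp)
  · rw [h1] at hFf
    exact not_fort_singleton h x hFf

theorem Fort.other (h : Nice G) {F : Finset V} (hF : Fort G F) {x : V} (hx : x ∈ F) :
    ∃ y ∈ F, y ≠ x ∧ G.Adj x y := by
  have h1 : F ≠ {x} := by
    rintro rfl
    exact not_fort_singleton h x hF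
  obtain ⟨r, hr, s, hs, hsR, hrs⟩ := hF.1.cut (R := {x}) (by simpa using hx) ⟨x, by simp⟩ h1.symm
  rw [Finset.mem_singleton] at hr hsR
  subst hr
  exact ⟨s, hs, hsR, hrs⟩

theorem conn_pair {x y : V} (hxy : G.Adj x y) : Conn G {x, y} := by
  exact (Conn.singleton y).insert (by simp) hxy

theorem ind_pair (h : Nice G) {x y : V} (hxy : G.Adj x y) (hnt : ¬ Twins G x y) :
    Ind G {x, y} := by
  intro F hF hFf
  obtain ⟨z, hz⟩ : ∃ z, ¬ (near G z x ↔ near G z y) := by
    by_contra hcon
    push Not at hcon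
    exact hnt hcon
  have hzx : z ≠ x := by
    rintro rfl
    exact hz ⟨fun _ => Or.inr hxy, fun _ => near_refl _⟩
  have hzy : z ≠ y := by
    rintro rfl
    exact hz ⟨fun _ => near_refl _, fun _ => Or.inr hxy.symm⟩
  have hz' : ¬ (G.Adj z x ↔ G.Adj z y) := by
    intro h1
    apply hz
    simp only [near, hzx, hzy, false_or, h1]
  have hxyF : x ∈ F ∧ y ∈ F := by
    obtain ⟨a, ha⟩ := hFf.1.1
    obtain ⟨b, hb, hba, _⟩ := hFf.other h ha
    have h1 := hF ha
    have h2 := hF hb
    simp only [Finset.mem_insert, Finset.mem_singleton] at h1 h2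
    rcases h1 with rfl | rfl <;> rcases h2 with rfl | rfl
    · exact absurd rfl hba
    · exact ⟨ha, hb⟩
    · exact ⟨hb, ha⟩
    · exact absurd rfl hba
  have hzF : z ∉ F := by
    intro h1
    have := hF h1
    simp only [Finset.mem_insert, Finset.mem_singleton] at this
    tauto
  by_cases h1 : G.Adj z x
  · have h2 : ¬ G.Adj z y := fun h2 => hz' (by simp [h1, h2])
    apply hFf.2 x z
    refine ⟨hzF, hxyF.1, ?_⟩
    intro t ht
    have := hF ht
    simp only [Finset.mem_insert, Finset.mem_singleton] at this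
    rcases this with rfl | rfl
    · simp [h1]
    · simp [h2, hxy.ne']
  · have h2 : G.Adj z y := by
      by_contra h2
      exact hz' (by simp [h1, h2])
    apply hFf.2 y z
    refine ⟨hzF, hxyF.2, ?_⟩
    intro t ht
    have := hF ht
    simp only [Finset.mem_insert, Finset.mem_singleton] at this
    rcases this with rfl | rfl
    · simp [h1, hxy.ne]
    · simp [h2]

/-- Step 1: membership in a fort of `X ∪ v` -/
theorem fort_mem_iff (h : Nice G) {X F : Finset V} {v : V} (hX : Ind G X) (hv : v ∉ X)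
    (hFX : F ⊆ insert v X) (hF : Fort G F) {c b : V} (hb : Priv G X c b) :
    c ∈ F ↔ near G v b := by
  have hvF : v ∈ F := by
    by_contra hvF
    apply hX F _ hF
    intro x hx
    rcases Finset.mem_insert.mp (hFX hx) with h1 | h1
    · rw [h1] at hx; exact absurd hx hvF
    · exact h1
  have hFX' : ∀ x ∈ F, x ≠ v → x ∈ X := by
    intro x hx hxv
    rcases Finset.mem_insert.mp (hFX hx) with h1 | h1
    · exact absurd h1 hxv
    · exact h1
  have hcv : c ≠ v := by
    rintro rfl
    exact hv hb.2.1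
  by_cases hbv : b = v
  · subst hbv
    obtain ⟨y, hy, hyb, hby⟩ := hF.other h hvF
    have := (hb.2.2 y (hFX' y hy hyb)).mp hby
    subst this
    exact ⟨fun _ => near_refl _, fun _ => hy⟩
  · have hbF : b ∉ F := fun h1 => hb.1 (hFX' b h1 hbv)
    constructor
    · intro hc
      by_contra hn
      apply hF.2 c b
      refine ⟨hbF, hc, ?_⟩
      intro x hx
      by_cases hxv : x = v
      · subst hxv
        constructor
        · intro h1
          exact absurd (Or.inr h1.symm) hn
        · intro h1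
          exact absurd h1.symm hcv
      · exact hb.2.2 x (hFX' x hx hxv)
    · intro hn
      by_contra hc
      have hadj : G.Adj b v := (hn.adj (Ne.symm hbv)).symm
      apply hF.2 v b
      refine ⟨hbF, hvF, ?_⟩
      intro x hx
      by_cases hxv : x = v
      · subst hxv
        simp [hadj]
      · rw [hb.2.2 x (hFX' x hx hxv)]
        constructor
        · rintro rfl
          exact absurd hx hc
        · intro h1
          exact absurd h1 hxv

theorem fort_mem_v {X F : Finset V} {v : V} (hX : Ind G X)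
    (hFX : F ⊆ insert v X) (hF : Fort G F) : v ∈ F := by
  by_contra hvF
  apply hX F _ hF
  intro x hx
  rcases Finset.mem_insert.mp (hFX hx) with h1 | h1
  · rw [h1] at hx; exact absurd hx hvF
  · exact h1

theorem fort_unique (h : Nice G) {X F F' : Finset V} {v : V} (hXc : Conn G X) (hX : Ind G X)
    (hv : v ∉ X) (hFX : F ⊆ insert v X) (hF : Fort G F) (hFX' : F' ⊆ insert v X)
    (hF' : Fort G F') : F = F' := by
  ext x
  by_cases hxv : x = v
  · subst hxv
    exact ⟨fun _ => fort_mem_v hX hFX' hF', fun _ => fort_mem_v hX hFX hF⟩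
  · by_cases hxX : x ∈ X
    · obtain ⟨b, hb⟩ := h.pp X hXc hX x hxX
      rw [fort_mem_iff h hX hv hFX hF hb, fort_mem_iff h hX hv hFX' hF' hb]
    · constructor
      · intro h1
        rcases Finset.mem_insert.mp (hFX h1) with h2 | h2
        · exact absurd h2 hxv
        · exact absurd h2 hxX
      · intro h1
        rcases Finset.mem_insert.mp (hFX' h1) with h2 | h2
        · exact absurd h2 hxv
        · exact absurd h2 hxX

theorem ind_exchange (h : Nice G) {X F : Finset V} {v s : V} (hXc : Conn G X) (hX : Ind G X)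
    (hv : v ∉ X) (hFX : F ⊆ insert v X) (hF : Fort G F) (hs : s ∈ F) :
    Ind G ((insert v X).erase s) := by
  intro F' hF' hF'f
  have := fort_unique h hXc hX hv hFX hF (hF'.trans (Finset.erase_subset _ _)) hF'f
  rw [this] at hs
  have := hF' hs
  simp at this

/-- maximal connected independent sets -/
structure MM (G : SimpleGraph V) (W : Finset V) : Prop where
  conn : Conn G W
  ind : Ind G W
  two : ∃ x ∈ W, ∃ y ∈ W, x ≠ y
  max : ∀ v, v ∉ W → (∃ x ∈ W, G.Adj v x) → ¬ Ind G (insert v W)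

theorem MM.nbr {W : Finset V} (hW : MM G W) {w : V} (hw : w ∈ W) : ∃ x ∈ W, G.Adj w x := by
  obtain ⟨x, hx, y, hy, hxy⟩ := hW.two
  by_cases h : w = x
  · subst h
    exact hW.conn.exists_nbr hw hy hxy
  · exact hW.conn.exists_nbr hw hx h

theorem nontwin_nbr (h : Nice G) (hnc : ∃ x y : V, x ≠ y ∧ ¬ G.Adj x y) (x : V) :
    ∃ y, G.Adj x y ∧ ¬ Twins G x y := by
  classical
  by_contra hcon
  push Not at hcon
  obtain ⟨a, b, hab, hnab⟩ := hnc
  have hcl : (Finset.univ.filter (fun z => near G z x)) = Finset.univ := by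
    apply h.conn.2 _ (Finset.subset_univ _) ⟨x, by simp [near_refl]⟩
    intro c hc d _ hcd
    simp only [Finset.mem_filter, Finset.mem_univ, true_and] at hc ⊢
    by_cases hcx : c = x
    · subst hcx
      exact Or.inr hcd.symm
    · have h1 := hcon c (hc.adj hcx).symm
      rw [h1 d]
      exact Or.inr hcd.symm
  have hall : ∀ z, near G z x := by
    intro z
    have : z ∈ (Finset.univ.filter (fun z => near G z x)) := by rw [hcl]; simp
    simpa using this
  by_cases hax : a = x
  · subst hax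
    exact hnab ((hall b).symm.adj hab)
  · have h1 := hcon a ((hall a).adj hax).symm
    have h2 := (h1 b).mp (hall b)
    exact hnab (h2.symm.adj hab)

theorem exists_MM (h : Nice G) (hnc : ∃ x y : V, x ≠ y ∧ ¬ G.Adj x y) {X : Finset V}
    (hXc : Conn G X) (hX : Ind G X) : ∃ W, X ⊆ W ∧ MM G W := by
  classical
  obtain ⟨W, hW, hmax⟩ := Finset.exists_max_image
    (Finset.univ.filter (fun W : Finset V => X ⊆ W ∧ Conn G W ∧ Ind G W)) Finset.card
    ⟨X, by simp [hXc, hX]⟩
  simp only [Finset.mem_filter, Finset.mem_univ, true_and] at hW hmax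
  have hm : ∀ v, v ∉ W → (∃ x ∈ W, G.Adj v x) → ¬ Ind G (insert v W) := by
    intro v hv ⟨x, hx, hvx⟩ hI
    have := hmax (insert v W) ⟨hW.1.trans (Finset.subset_insert _ _), hW.2.1.insert hx hvx, hI⟩
    rw [Finset.card_insert_of_notMem hv] at this
    omega
  refine ⟨W, hW.1, hW.2.1, hW.2.2, ?_, hm⟩
  by_contra hcon
  push Not at hcon
  obtain ⟨x, hx⟩ := hW.2.1.1
  have hWx : W = {x} := by
    ext y
    rw [Finset.mem_singleton]
    exact ⟨fun hy => (hcon x hx y hy).symm, fun hy => by rw [hy]; exact hx⟩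
  obtain ⟨y, hxy, hnt⟩ := nontwin_nbr h hnc x
  apply hm y (by rw [hWx]; simpa using hxy.ne') ⟨x, hx, hxy.symm⟩
  rw [hWx]
  exact ind_pair h hxy.symm (fun h1 => hnt h1.symm')

theorem MM.dom (h : Nice G) {W : Finset V} (hW : MM G W) {v : V} (hv : v ∉ W) :
    ∃ x ∈ W, G.Adj v x := by
  classical
  by_contra hcon
  set A := Finset.univ.filter (fun z => z ∈ W ∨ ∃ x ∈ W, G.Adj z x) with hA
  have hvA : v ∉ A := by
    rw [hA]; simp only [Finset.mem_filter, Finset.mem_univ, true_and, not_or]
    exact ⟨hv, hcon⟩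
  obtain ⟨x, hx, -⟩ := hW.two
  obtain ⟨r, hr, s, -, hs, hrs⟩ := h.conn.cut (R := A) (Finset.subset_univ _)
    ⟨x, by rw [hA]; simp [hx]⟩ (by intro h1; rw [h1] at hvA; simp at hvA)
  rw [hA] at hr hs
  simp only [Finset.mem_filter, Finset.mem_univ, true_and, not_or, not_exists, not_and] at hr hs
  have hrW : r ∉ W := fun h1 => hs.2 r h1 hrs.symm
  rcases hr with hr | hr
  · exact hrW hr
  · have h1 := hW.max r hrW hr
    unfold Ind at h1
    push Not at h1
    obtain ⟨F, hF, hFf⟩ := h1
    have hrF := fort_mem_v hW.ind hF hFf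
    apply hFf.2 r s
    refine ⟨?_, hrF, ?_⟩
    · intro h2
      rcases Finset.mem_insert.mp (hF h2) with h3 | h3
      · rw [h3] at hrs; exact hrs.ne rfl
      · exact hs.1 h3
    · intro y hy
      constructor
      · intro h2
        rcases Finset.mem_insert.mp (hF hy) with h3 | h3
        · exact h3
        · exact absurd h2 (hs.2 y h3)
      · rintro rfl
        exact hrs.symm

theorem MM.exists_fort (h : Nice G) {W : Finset V} (hW : MM G W) {v : V} (hv : v ∉ W) :
    ∃ F ⊆ insert v W, Fort G F := by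
  have := hW.max v hv (hW.dom h hv)
  unfold Ind at this
  push Not at this
  exact this

open Classical in
/-- the unique fort in `W ∪ v` -/
noncomputable def FF (G : SimpleGraph V) (W : Finset V) (v : V) : Finset V :=
  (insert v W).filter (fun c => c = v ∨ ∃ b, Priv G W c b ∧ near G v b)

theorem FF_mem {W : Finset V} {v x : V} :
    x ∈ FF G W v ↔ x ∈ insert v W ∧ (x = v ∨ ∃ b, Priv G W x b ∧ near G v b) := by
  simp only [FF, Finset.mem_filter]

theorem FF_sub (W : Finset V) (v : V) : FF G W v ⊆ insert v W := fun _ hx => (FF_mem.mp hx).1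

theorem FF_eq (h : Nice G) {W : Finset V} (hW : MM G W) {v : V} (hv : v ∉ W) {F : Finset V}
    (hF : F ⊆ insert v W) (hFf : Fort G F) : F = FF G W v := by
  ext x
  rw [FF_mem]
  by_cases hxv : x = v
  · subst hxv
    simp [fort_mem_v hW.ind hF hFf]
  · constructor
    · intro hx
      have hxW : x ∈ W := by
        rcases Finset.mem_insert.mp (hF hx) with h1 | h1
        · exact absurd h1 hxv
        · exact h1
      obtain ⟨b, hb⟩ := h.pp W hW.conn hW.ind x hxW
      exact ⟨hF hx, Or.inr ⟨b, hb, (fort_mem_iff h hW.ind hv hF hFf hb).mp hx⟩⟩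
    · rintro ⟨h1, h2 | ⟨b, hb, hnb⟩⟩
      · exact absurd h2 hxv
      · exact (fort_mem_iff h hW.ind hv hF hFf hb).mpr hnb

theorem FF_fort (h : Nice G) {W : Finset V} (hW : MM G W) {v : V} (hv : v ∉ W) :
    Fort G (FF G W v) := by
  obtain ⟨F, hF, hFf⟩ := hW.exists_fort h hv
  rw [← FF_eq h hW hv hF hFf]
  exact hFf

theorem mem_FF (h : Nice G) {W : Finset V} (hW : MM G W) {v : V} (hv : v ∉ W) {c b : V}
    (hb : Priv G W c b) : c ∈ FF G W v ↔ near G v b :=
  fort_mem_iff h hW.ind hv (FF_sub W v) (FF_fort h hW hv) hb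

theorem self_mem_FF (W : Finset V) (v : V) : v ∈ FF G W v := by
  rw [FF_mem]; simp

theorem mem_of_FF {W : Finset V} {v x : V} (hx : x ∈ FF G W v) (hxv : x ≠ v) : x ∈ W := by
  rcases Finset.mem_insert.mp (FF_sub W v hx) with h1 | h1
  · exact absurd h1 hxv
  · exact h1

/-- privates are twins -/
theorem priv_twins (h : Nice G) {W : Finset V} (hW : MM G W) {w b b' : V} (hb : Priv G W w b)
    (hb' : Priv G W w b') : Twins G b b' := by
  intro z
  by_cases hz : z ∈ W
  · have h1 : z ≠ b := fun h => hb.1 (h ▸ hz)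
    have h2 : z ≠ b' := fun h => hb'.1 (h ▸ hz)
    have e1 : near G z b ↔ z = w := by
      rw [← hb.2.2 z hz]
      exact ⟨fun h => (h.adj h1).symm, fun h => Or.inr h.symm⟩
    have e2 : near G z b' ↔ z = w := by
      rw [← hb'.2.2 z hz]
      exact ⟨fun h => (h.adj h2).symm, fun h => Or.inr h.symm⟩
    rw [e1, e2]
  · rw [← mem_FF h hW hz hb, ← mem_FF h hW hz hb']

theorem twin_priv {W : Finset V} (hW : MM G W) {w b b' : V} (hb : Priv G W w b)
    (ht : Twins G b b') : Priv G W w b' := by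
  have hkey : ∀ z ∈ W, near G z b' ↔ z = w := by
    intro z hz
    rw [← ht z, ← hb.2.2 z hz]
    have h1 : z ≠ b := fun h => hb.1 (h ▸ hz)
    exact ⟨fun h => (h.adj h1).symm, fun h => Or.inr h.symm⟩
  have hb'W : b' ∉ W := by
    intro h1
    have h2 : b' = w := (hkey b' h1).mp (near_refl _)
    obtain ⟨x, hx, hwx⟩ := hW.nbr h1
    have h3 := (hkey x hx).mp (Or.inr hwx.symm)
    rw [h3, h2] at hwx
    exact hwx.ne rfl
  refine ⟨hb'W, hb.2.1, ?_⟩
  intro x hx
  rw [← hkey x hx]
  have h1 : x ≠ b' := fun h => hb'W (h ▸ hx)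
  exact ⟨fun h => Or.inr h.symm, fun h => (h.adj h1).symm⟩

/-- Step 3 -/
theorem exchange (h : Nice G) {W : Finset V} (hW : MM G W) {v s : V} (hv : v ∉ W) (hs : s ∈ W)
    (hsF : s ∈ FF G W v) (hc : Conn G (insert v (W.erase s))) : MM G (insert v (W.erase s)) := by
  have hvs : v ≠ s := fun h => hv (h ▸ hs)
  have he : insert v (W.erase s) = (insert v W).erase s := by
    rw [Finset.erase_insert_of_ne hvs]
  have hI : Ind G (insert v (W.erase s)) := by
    rw [he]
    exact ind_exchange h hW.conn hW.ind hv (FF_sub W v) (FF_fort h hW hv) hsF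
  obtain ⟨y, hy, hsy⟩ := hW.nbr hs
  have hyW' : y ∈ insert v (W.erase s) :=
    Finset.mem_insert_of_mem (Finset.mem_erase.mpr ⟨hsy.ne', hy⟩)
  refine ⟨hc, hI, ⟨v, by simp, y, hyW', fun h1 => hv (h1 ▸ hy)⟩, ?_⟩
  intro u hu hux hInd
  have hus : u ≠ s := by
    rintro rfl
    have h1 : insert u (insert v (W.erase u)) = insert v W := by
      rw [Finset.insert_comm, Finset.insert_erase hs]
    rw [h1] at hInd
    exact hInd _ (FF_sub W v) (FF_fort h hW hv)
  have huv : u ≠ v := by rintro rfl; exact hu (by simp)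
  have huW : u ∉ W := fun h1 => hu (Finset.mem_insert_of_mem (Finset.mem_erase.mpr ⟨hus, h1⟩))
  have hsu : s ∈ FF G W u := by
    by_contra h1
    apply hInd (FF G W u) _ (FF_fort h hW huW)
    intro x hx
    rcases Finset.mem_insert.mp (FF_sub W u hx) with h2 | h2
    · rw [h2]; simp
    · have h3 : x ≠ s := by rintro rfl; exact h1 hx
      exact Finset.mem_insert_of_mem (Finset.mem_insert_of_mem (Finset.mem_erase.mpr ⟨h3, h2⟩))
  obtain ⟨x, hx, hux⟩ := hux
  obtain ⟨p, hp⟩ := h.pp _ (hc.insert hx hux) hInd v (by simp)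
  have hps : p ≠ s := by
    rintro rfl
    have h1 := (hp.2.2 y (Finset.mem_insert_of_mem hyW')).mp hsy
    exact hv (h1 ▸ hy)
  have hpW : p ∉ W := fun h1 => hp.1
    (Finset.mem_insert_of_mem (Finset.mem_insert_of_mem (Finset.mem_erase.mpr ⟨hps, h1⟩)))
  have hpadj : ∀ z ∈ W, z ≠ s → ¬ G.Adj p z := by
    intro z hz hzs h1
    have h2 := (hp.2.2 z (Finset.mem_insert_of_mem (Finset.mem_insert_of_mem
      (Finset.mem_erase.mpr ⟨hzs, hz⟩)))).mp h1
    exact hv (h2 ▸ hz)
  have hpriv : Priv G W s p := by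
    refine ⟨hpW, hs, ?_⟩
    intro z hz
    constructor
    · intro h1
      by_contra hzs
      exact hpadj z hz hzs h1
    · rintro rfl
      obtain ⟨t, ht, hpt⟩ := hW.dom h hpW
      by_cases hts : t = z
      · rw [← hts]; exact hpt
      · exact absurd hpt (hpadj t ht hts)
  have h1 := (mem_FF h hW huW hpriv).mp hsu
  have hup : u ≠ p := by
    rintro rfl
    exact hp.1 (by simp)
  have h2 := (hp.2.2 u (by simp)).mp (h1.adj hup).symm
  exact huv h2

/-- Step 5 -/
theorem step5 (h : Nice G) {W : Finset V} (hW : MM G W) {v s : V} (hv : v ∉ W) (hs : s ∈ W)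
    (hsF : s ∈ FF G W v) {R : Finset V} (hR : R ⊆ (insert v W).erase s) (hne : R.Nonempty)
    (hvR : v ∉ R) (hcl : ∀ a ∈ R, ∀ b ∈ (insert v W).erase s, G.Adj a b → b ∈ R) :
    ∃ c ∈ R, c ∈ FF G W v := by
  by_contra hcon
  push Not at hcon
  have hRW : R ⊆ W := by
    intro x hx
    have h1 := hR hx
    rw [Finset.mem_erase, Finset.mem_insert] at h1
    rcases h1.2 with h2 | h2
    · rw [h2] at hx; exact absurd hx hvR
    · exact h2
  have hsR : s ∉ R := fun h1 => by have := hR h1; simp at this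
  obtain ⟨r, hr, t, ht, htR, hrt⟩ := hW.conn.cut hRW hne (by
    intro h1; rw [h1] at hsR; exact hsR hs)
  have hts : t = s := by
    by_contra h1
    exact htR (hcl r hr t (Finset.mem_erase.mpr ⟨h1, Finset.mem_insert_of_mem ht⟩) hrt)
  subst hts
  apply (FF_fort h hW hv).2 t r
  refine ⟨hcon r hr, hsF, ?_⟩
  intro x hx
  constructor
  · intro h1
    by_contra hxt
    exact hcon x (hcl r hr x (Finset.mem_erase.mpr ⟨hxt, FF_sub W v hx⟩) h1) hx
  · rintro rfl
    exact hrt

end R91.PSD
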