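import Mathlib
import Pool.Agent.R91.PSD.Basic

/-!
# Step 6: no orthogonal splitting of a maximal set
-/

set_option linter.unusedSectionVars false

namespace R91.PSD

universe u

variable {V : Type u} [Fintype V] [DecidableEq V] {G : SimpleGraph V}

open Classical in
/-- number of edges between `A` and `B` -/
noncomputable def eAB (G : SimpleGraph V) (A B : Finset V) : ℕ :=
  ((A ×ˢ B).filter (fun p => G.Adj p.1 p.2)).card

/-- orthogonality of the private classes -/
def Orth (G : SimpleGraph V) (W A B : Finset V) : Prop :=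
  ∀ a ∈ A, ∀ b ∈ B, ∀ p q, Priv G W a p → Priv G W b q → ¬ near G p q

theorem exists_conn_erase (h : Nice G) {W : Finset V} (hW : MM G W) {v a a2 b : V} (hv : v ∉ W)
    {C : Finset V} (haF : a ∈ FF G W v) (haW : a ∈ W) (ha2 : a2 ∈ C) (hva2 : Priv G W a2 v)
    (hC : C ⊆ W.erase a) (hbC : b ∈ C) (hCc : Conn G C) (hab : G.Adj a b)
    (hcl : ∀ x ∈ C, ∀ y ∈ W.erase a, G.Adj x y → y ∈ C) (hne : C ≠ W.erase a) :
    ∃ s ∈ W, s ∈ FF G W v ∧ s ∉ C ∧ s ≠ a ∧ Conn G ((insert v W).erase s) := by
  classical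
  have hvC : v ∉ C := fun h1 => hv (Finset.mem_of_mem_erase (hC h1))
  -- the set of candidates
  have hcand : ∃ s ∈ W, s ∈ FF G W v ∧ s ∉ C ∧ s ≠ a := by
    have hR : (W.erase a) \ C ⊆ (insert v W).erase a := by
      intro x hx
      rw [Finset.mem_sdiff, Finset.mem_erase] at hx
      exact Finset.mem_erase.mpr ⟨hx.1.1, Finset.mem_insert_of_mem hx.1.2⟩
    obtain ⟨c, hc, hcF⟩ := step5 h hW hv haW haF hR
      (by
        rw [Finset.sdiff_nonempty]
        intro h1
        exact hne (Finset.Subset.antisymm hC h1))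
      (by
        rw [Finset.mem_sdiff, Finset.mem_erase]
        intro h1
        exact hv h1.1.2)
      (by
        intro x hx y hy hxy
        rw [Finset.mem_sdiff] at hx
        have hxW : x ∈ W := Finset.mem_of_mem_erase hx.1
        rw [Finset.mem_erase, Finset.mem_insert] at hy
        rw [Finset.mem_sdiff, Finset.mem_erase]
        rcases hy.2 with h1 | h1
        · subst h1
          have h2 := (hva2.2.2 x hxW).mp hxy.symm
          rw [h2] at hx
          exact absurd ha2 hx.2
        · refine ⟨⟨hy.1, h1⟩, ?_⟩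
          intro hyC
          exact hx.2 (hcl y hyC x hx.1 hxy.symm))
    rw [Finset.mem_sdiff, Finset.mem_erase] at hc
    exact ⟨c, hc.1.2, hcF, hc.2, hc.1.1⟩
  -- pairs (s, K)
  have hKex : ∀ s ∈ W, ∃ K ⊆ (insert v W).erase s, v ∈ K ∧ Conn G K ∧
      ∀ a ∈ K, ∀ b ∈ (insert v W).erase s, G.Adj a b → b ∈ K := by
    intro s hs
    apply exists_comp
    rw [Finset.mem_erase]
    exact ⟨fun h1 => hv (h1 ▸ hs), by simp⟩
  obtain ⟨⟨s, K⟩, hsK, hmax⟩ := Finset.exists_max_image
    ((Finset.univ : Finset (V × Finset V)).filter (fun q => q.1 ∈ W ∧ q.1 ∈ FF G W v ∧ q.1 ∉ C ∧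
      q.1 ≠ a ∧ q.2 ⊆ (insert v W).erase q.1 ∧ v ∈ q.2 ∧ Conn G q.2 ∧
      ∀ a ∈ q.2, ∀ b ∈ (insert v W).erase q.1, G.Adj a b → b ∈ q.2)) (fun q => q.2.card)
    (by
      obtain ⟨s, hs1, hs2, hs3, hs4⟩ := hcand
      obtain ⟨K, hK1, hK2, hK3, hK4⟩ := hKex s hs1
      exact ⟨(s, K), by
        rw [Finset.mem_filter]
        exact ⟨Finset.mem_univ _, hs1, hs2, hs3, hs4, hK1, hK2, hK3, hK4⟩⟩)
  rw [Finset.mem_filter] at hsK
  obtain ⟨-, hsW, hsF, hsC, hsa, hKs, hvK, hKc, hKcl⟩ := hsK
  simp only at hsW hsF hsC hsa hKs hvK hKc hKcl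
  refine ⟨s, hsW, hsF, hsC, hsa, ?_⟩
  have hvs : v ≠ s := fun h1 => hv (h1 ▸ hsW)
  suffices hKe : K = (insert v W).erase s by rw [← hKe]; exact hKc
  by_contra hKne
  -- the set C ∪ {a, v} is in K
  have hK0 : Conn G (insert v (insert a C)) :=
    (hCc.insert hbC hab).insert (Finset.mem_insert_of_mem ha2)
      ((hva2.2.2 a2 hva2.2.1).mpr rfl)
  have hK0s : insert v (insert a C) ⊆ (insert v W).erase s := by
    intro x hx
    rw [Finset.mem_insert, Finset.mem_insert] at hx
    rw [Finset.mem_erase, Finset.mem_insert]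
    rcases hx with rfl | rfl | hx
    · exact ⟨hvs, Or.inl rfl⟩
    · exact ⟨hsa.symm, Or.inr haW⟩
    · exact ⟨fun h1 => hsC (h1 ▸ hx), Or.inr (Finset.mem_of_mem_erase (hC hx))⟩
  have hK0K : insert v (insert a C) ⊆ K :=
    hK0.subset_of_closed hK0s hKcl (x := v) (by simp) hvK
  obtain ⟨r0, hr0, hr0F⟩ := step5 h hW hv hsW hsF (R := ((insert v W).erase s) \ K)
    Finset.sdiff_subset
    (by
      rw [Finset.sdiff_nonempty]
      intro h1
      exact hKne (Finset.Subset.antisymm hKs h1))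
    (by
      rw [Finset.mem_sdiff]
      intro h1
      exact h1.2 hvK)
    (by
      intro x hx y hy hxy
      rw [Finset.mem_sdiff] at hx ⊢
      refine ⟨hy, ?_⟩
      intro hyK
      exact hx.2 (hKcl y hyK x hx.1 hxy.symm))
  rw [Finset.mem_sdiff] at hr0
  have hr0v : r0 ≠ v := by rintro rfl; exact hr0.2 hvK
  have hr0W : r0 ∈ W := mem_of_FF hr0F hr0v
  have hr0C : r0 ∉ C := fun h1 => hr0.2 (hK0K (by simp [h1]))
  have hr0a : r0 ≠ a := fun h1 => hr0.2 (hK0K (by simp [h1]))
  obtain ⟨K', hK'1, hK'2, hK'3, hK'4⟩ := hKex r0 hr0W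
  have hle := hmax (r0, K') (by
    rw [Finset.mem_filter]
    exact ⟨Finset.mem_univ _, hr0W, hr0F, hr0C, hr0a, hK'1, hK'2, hK'3, hK'4⟩)
  simp only at hle
  -- s is adjacent to K
  have hWv : Conn G (insert v W) := hW.conn.insert hva2.2.1 ((hva2.2.2 a2 hva2.2.1).mpr rfl)
  have hsK : s ∉ K := fun h1 => by have := hKs h1; simp at this
  obtain ⟨x, hx, y, hy, hyK, hxy⟩ := hWv.cut (R := K) (hKs.trans (Finset.erase_subset _ _))
    ⟨v, hvK⟩ (by intro h1; rw [h1] at hsK; exact hsK (Finset.mem_insert_of_mem hsW))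
  have hys : y = s := by
    by_contra h1
    exact hyK (hKcl x hx y (Finset.mem_erase.mpr ⟨h1, hy⟩) hxy)
  subst hys
  have hsub : insert y K ⊆ (insert v W).erase r0 := by
    intro z hz
    rw [Finset.mem_insert] at hz
    rw [Finset.mem_erase]
    rcases hz with rfl | hz
    · refine ⟨?_, hy⟩
      rintro rfl
      have := hr0.1
      simp at this
    · exact ⟨fun h1 => hr0.2 (h1 ▸ hz), Finset.mem_of_mem_erase (hKs hz)⟩
  have hsubK' : insert y K ⊆ K' :=
    (hKc.insert hx hxy.symm).subset_of_closed hsub hK'4 (x := v)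
      (Finset.mem_insert_of_mem hvK) hK'2
  have := Finset.card_le_card hsubK'
  rw [Finset.card_insert_of_notMem hyK] at this
  omega

theorem eAB_le {A B A' : Finset V} {v s : V} (hA' : A' = insert v (A.erase s))
    (hv : ∀ b ∈ B, ¬ G.Adj v b) : eAB G A' B ≤ eAB G A B := by
  classical
  unfold eAB
  apply Finset.card_le_card
  intro p hp
  rw [Finset.mem_filter, Finset.mem_product] at hp ⊢
  refine ⟨⟨?_, hp.1.2⟩, hp.2⟩
  have h1 := hp.1.1
  rw [hA', Finset.mem_insert] at h1
  rcases h1 with h1 | h1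
  · have := hp.2
    rw [h1] at this
    exact absurd this (hv _ hp.1.2)
  · exact Finset.mem_of_mem_erase h1

theorem eAB_lt {A B A' : Finset V} {v s b : V} (hA' : A' = insert v (A.erase s)) (hvs : v ≠ s)
    (hv : ∀ b ∈ B, ¬ G.Adj v b) (hs : s ∈ A) (hb : b ∈ B) (hsb : G.Adj s b) :
    eAB G A' B < eAB G A B := by
  classical
  unfold eAB
  apply Finset.card_lt_card
  rw [Finset.ssubset_iff_of_subset]
  · refine ⟨(s, b), ?_, ?_⟩
    · simp [hs, hb, hsb]
    · simp [hA', hvs.symm]
  · intro p hp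
    rw [Finset.mem_filter, Finset.mem_product] at hp ⊢
    refine ⟨⟨?_, hp.1.2⟩, hp.2⟩
    have h1 := hp.1.1
    rw [hA', Finset.mem_insert] at h1
    rcases h1 with h1 | h1
    · have := hp.2
      rw [h1] at this
      exact absurd this (hv _ hp.1.2)
    · exact Finset.mem_of_mem_erase h1

theorem cstar_aux (h : Nice G) : ∀ n k : ℕ, ∀ (W A B : Finset V) (a b : V) (C : Finset V),
    MM G W → W = A ∪ B → Disjoint A B → a ∈ A → b ∈ B → G.Adj a b → Orth G W A B →
    C ⊆ W.erase a → b ∈ C → Conn G C → (∀ x ∈ C, ∀ y ∈ W.erase a, G.Adj x y → y ∈ C) →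
    eAB G A B = n → (W \ C).card = k → False := by
  intro n
  induction n using Nat.strong_induction_on with
  | _ n ihn =>
  intro k
  induction k using Nat.strong_induction_on with
  | _ k ihk =>
  intro W A B a b C hW hWAB hdis ha hb hab horth hC hbC hCc hCcl hn hk
  have hAW : A ⊆ W := by rw [hWAB]; exact Finset.subset_union_left
  have hBW : B ⊆ W := by rw [hWAB]; exact Finset.subset_union_right
  have hnotboth : ∀ x, x ∈ A → x ∈ B → False := fun x h1 h2 =>
    (Finset.disjoint_left.mp hdis) h1 h2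
  have haW := hAW ha
  have hbW := hBW hb
  obtain ⟨p, hp⟩ := h.pp W hW.conn hW.ind a haW
  -- elements of the fort of p
  have hFA : ∀ (a' v : V), a' ∈ A → Priv G W a' v → ∀ x ∈ FF G W v, x ≠ v → x ∈ A := by
    intro a' v ha' hv x hx hxv
    have hxW := mem_of_FF hx hxv
    by_contra hxA
    have hxB : x ∈ B := by
      rw [hWAB, Finset.mem_union] at hxW
      exact hxW.resolve_left hxA
    obtain ⟨q, hq⟩ := h.pp W hW.conn hW.ind x hxW
    exact horth a' ha' x hxB v q hv hq ((mem_FF h hW hv.1 hq).mp hx)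
  have hFB : ∀ (b' v : V), b' ∈ B → Priv G W b' v → ∀ x ∈ FF G W v, x ≠ v → x ∈ B := by
    intro b' v hb' hv x hx hxv
    have hxW := mem_of_FF hx hxv
    by_contra hxB
    have hxA : x ∈ A := by
      rw [hWAB, Finset.mem_union] at hxW
      exact hxW.resolve_right hxB
    obtain ⟨q, hq⟩ := h.pp W hW.conn hW.ind x hxW
    exact horth x hxA b' hb' q v hq hv ((mem_FF h hW hv.1 hq).mp hx).symm
  have haFp : a ∈ FF G W p := (mem_FF h hW hp.1 hp).mpr (near_refl p)
  have hbp : ¬ G.Adj b p := by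
    intro h1
    have := (hp.2.2 b hbW).mp h1.symm
    rw [this] at hb
    exact hnotboth a ha hb
  obtain ⟨a2, ha2F, ha2a, hba2⟩ : ∃ a2 ∈ FF G W p, a2 ≠ a ∧ G.Adj b a2 := by
    by_contra hcon
    push Not at hcon
    apply (FF_fort h hW hp.1).2 a b
    refine ⟨?_, haFp, ?_⟩
    · intro h1
      have hbp' : b ≠ p := by rintro rfl; exact hp.1 hbW
      exact hnotboth b (hFA a p ha hp b h1 hbp') hb
    · intro x hx
      constructor
      · intro h1
        by_contra h2
        exact hcon x hx h2 h1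
      · rintro rfl
        exact hab.symm
  have ha2p : a2 ≠ p := by rintro rfl; exact hbp hba2
  have ha2A : a2 ∈ A := hFA a p ha hp a2 ha2F ha2p
  have ha2W := hAW ha2A
  obtain ⟨v, hv⟩ := h.pp W hW.conn hW.ind a2 ha2W
  have hvW := hv.1
  have hpv : near G p v := (mem_FF h hW hp.1 hv).mp ha2F
  have haFv : a ∈ FF G W v := (mem_FF h hW hv.1 hp).mpr hpv.symm
  have hvB : ∀ b' ∈ B, ¬ G.Adj v b' := by
    intro b' hb' h1
    have := (hv.2.2 b' (hBW hb')).mp h1
    rw [this] at hb'
    exact hnotboth a2 ha2A hb'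
  have ha2C : a2 ∈ C := hCcl b hbC a2 (Finset.mem_erase.mpr ⟨ha2a, ha2W⟩) hba2
  -- KEY
  have key : ∀ s ∈ W, s ∈ FF G W v → Conn G (insert v (W.erase s)) →
      MM G (insert v (W.erase s)) ∧ insert v (W.erase s) = (insert v (A.erase s)) ∪ B ∧
      Disjoint (insert v (A.erase s)) B ∧
      Orth G (insert v (W.erase s)) (insert v (A.erase s)) B := by
    intro s hsW hsF hsc
    have hvs : v ≠ s := fun h1 => hvW (h1 ▸ hsW)
    have hsA : s ∈ A := hFA a2 v ha2A hv s hsF hvs.symm
    have hsB : s ∉ B := fun h1 => hnotboth s hsA h1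
    have hMM := exchange h hW hvW hsW hsF hsc
    have hdis' : Disjoint (insert v (A.erase s)) B := by
      rw [Finset.disjoint_left]
      intro x hx hxB
      rw [Finset.mem_insert] at hx
      rcases hx with rfl | hx
      · exact hvW (hBW hxB)
      · exact hnotboth x (Finset.mem_of_mem_erase hx) hxB
    have hBW' : B ⊆ insert v (W.erase s) := by
      intro x hx
      exact Finset.mem_insert_of_mem (Finset.mem_erase.mpr ⟨fun h1 => hsB (h1 ▸ hx), hBW hx⟩)
    refine ⟨hMM, ?_, hdis', ?_⟩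
    · ext x
      simp only [Finset.mem_insert, Finset.mem_erase, Finset.mem_union]
      constructor
      · rintro (h1 | ⟨h1, h2⟩)
        · exact Or.inl (Or.inl h1)
        · rw [hWAB, Finset.mem_union] at h2
          rcases h2 with h2 | h2
          · exact Or.inl (Or.inr ⟨h1, h2⟩)
          · exact Or.inr h2
      · rintro ((h1 | ⟨h1, h2⟩) | h2)
        · exact Or.inl h1
        · exact Or.inr ⟨h1, hAW h2⟩
        · exact Or.inr ⟨fun h1 => hsB (h1 ▸ h2), hBW h2⟩
    · intro e he b' hb' p' q' hp' hq' hnear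
      obtain ⟨x, hx⟩ := h.pp W hW.conn hW.ind b' (hBW hb')
      have hvx : ¬ near G v x := horth a2 ha2A b' hb' v x hv hx
      have hxv : x ≠ v := fun h1 => hvx (Or.inl h1.symm)
      have hxW' : x ∉ insert v (W.erase s) := by
        rw [Finset.mem_insert, Finset.mem_erase]
        rintro (h1 | h1)
        · exact hxv h1
        · exact hx.1 h1.2
      have hxP : Priv G (insert v (W.erase s)) b' x := by
        refine ⟨hxW', hBW' hb', ?_⟩
        intro y hy
        rw [Finset.mem_insert, Finset.mem_erase] at hy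
        rcases hy with rfl | hy
        · constructor
          · intro h1
            exact absurd (Or.inr h1.symm) hvx
          · intro h1
            rw [← h1] at hb'
            exact absurd (hBW hb') hvW
        · exact hx.2.2 y hy.2
      have htw := priv_twins h hMM hq' hxP
      have hnear' : near G x p' := ((htw p').mp hnear).symm
      have heF : e ∈ FF G (insert v (W.erase s)) x := (mem_FF h hMM hxW' hp').mpr hnear'
      have hFsub : FF G W x ⊆ insert x (insert v (W.erase s)) := by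
        intro y hy
        by_cases hyx : y = x
        · rw [hyx]; simp
        · exact Finset.mem_insert_of_mem (hBW' (hFB b' x hb' hx y hy hyx))
      have hFeq := FF_eq h hMM hxW' hFsub (FF_fort h hW hx.1)
      rw [← hFeq] at heF
      have hex : e ≠ x := by
        rintro rfl
        exact hxW' hp'.2.1
      have heB := hFB b' x hb' hx e heF hex
      exact (Finset.disjoint_left.mp hdis') he heB
  by_cases hCe : C = W.erase a
  · -- exchange a
    have hc' : Conn G (insert v (W.erase a)) := by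
      rw [← hCe]
      exact hCc.insert ha2C ((hv.2.2 a2 ha2W).mpr rfl)
    obtain ⟨h1, h2, h3, h4⟩ := key a haW haFv hc'
    have hva : v ≠ a := fun h1 => hvW (h1 ▸ haW)
    have hlt : eAB G (insert v (A.erase a)) B < n := by
      rw [← hn]
      exact eAB_lt rfl hva hvB ha hb hab
    -- an edge between A' and B
    obtain ⟨a', ha', b', hb', hb'A, ha'b'⟩ := h1.conn.cut (R := insert v (A.erase a))
      (by rw [h2]; exact Finset.subset_union_left) ⟨v, by simp⟩
      (by
        intro h5
        have : b ∈ insert v (A.erase a) := by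
          rw [h5, h2]; exact Finset.mem_union_right _ hb
        exact (Finset.disjoint_left.mp h3) this hb)
    have hb'B : b' ∈ B := by
      rw [h2, Finset.mem_union] at hb'
      exact hb'.resolve_left hb'A
    have hne : b' ≠ a' := ha'b'.ne'
    obtain ⟨C', hC'1, hC'2, hC'3, hC'4⟩ := exists_comp ((insert v (W.erase a)).erase a')
      (x := b') (Finset.mem_erase.mpr ⟨hne, hb'⟩)
    exact ihn _ hlt _ _ _ _ a' b' C' h1 h2 h3 ha' hb'B ha'b' h4 hC'1 hC'2 hC'3 hC'4 rfl rfl
  · obtain ⟨s, hsW, hsF, hsC, hsa, hsc⟩ := exists_conn_erase h hW hvW haFv haW ha2C hv hC hbC hCc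
      hab hCcl hCe
    have hvs : v ≠ s := fun h1 => hvW (h1 ▸ hsW)
    rw [Finset.erase_insert_of_ne hvs] at hsc
    obtain ⟨h1, h2, h3, h4⟩ := key s hsW hsF hsc
    have hle : eAB G (insert v (A.erase s)) B ≤ n := by
      rw [← hn]
      exact eAB_le rfl hvB
    have haA' : a ∈ insert v (A.erase s) :=
      Finset.mem_insert_of_mem (Finset.mem_erase.mpr ⟨hsa.symm, ha⟩)
    have hbW' : b ∈ (insert v (W.erase s)).erase a := by
      rw [Finset.mem_erase, Finset.mem_insert, Finset.mem_erase]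
      exact ⟨hab.ne', Or.inr ⟨fun h5 => hsC (h5 ▸ hbC), hbW⟩⟩
    obtain ⟨C', hC'1, hC'2, hC'3, hC'4⟩ := exists_comp ((insert v (W.erase s)).erase a) hbW'
    have hlt' : ((insert v (W.erase s)) \ C').card < k := by
      have hsub : insert v C ⊆ C' := by
        apply (hCc.insert ha2C ((hv.2.2 a2 ha2W).mpr rfl)).subset_of_closed _ hC'4 (x := b)
          (Finset.mem_insert_of_mem hbC) hC'2
        intro x hx
        rw [Finset.mem_insert] at hx
        rw [Finset.mem_erase, Finset.mem_insert, Finset.mem_erase]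
        rcases hx with rfl | hx
        · exact ⟨fun h5 => hvW (h5 ▸ haW), Or.inl rfl⟩
        · have h6 := hC hx
          rw [Finset.mem_erase] at h6
          exact ⟨h6.1, Or.inr ⟨fun h5 => hsC (h5 ▸ hx), h6.2⟩⟩
      rw [← hk]
      apply Finset.card_lt_card
      rw [Finset.ssubset_iff_of_subset]
      · refine ⟨s, by simp [hsW, hsC], ?_⟩
        simp [hvs.symm]
      · intro x hx
        rw [Finset.mem_sdiff, Finset.mem_insert, Finset.mem_erase] at hx
        rw [Finset.mem_sdiff]
        rcases hx with ⟨h5 | h5, h6⟩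
        · rw [h5] at h6
          exact absurd (hsub (by simp)) h6
        · exact ⟨h5.2, fun h7 => h6 (hsub (Finset.mem_insert_of_mem h7))⟩
    rcases hle.lt_or_eq with hlt | heq
    · exact ihn _ hlt _ _ _ _ a b C' h1 h2 h3 haA' hb hab h4 hC'1 hC'2 hC'3 hC'4 rfl rfl
    · exact ihk _ hlt' _ _ _ a b C' h1 h2 h3 haA' hb hab h4 hC'1 hC'2 hC'3 hC'4 heq rfl

/-- Step 6 -/
theorem cstar (h : Nice G) {W A B : Finset V} (hW : MM G W) (hWAB : W = A ∪ B)
    (hdis : Disjoint A B) (hA : A.Nonempty) (hB : B.Nonempty) (horth : Orth G W A B) : False := by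
  obtain ⟨b0, hb0⟩ := hB
  obtain ⟨a, ha, b, hb, hbA, hab⟩ := hW.conn.cut (R := A)
    (by rw [hWAB]; exact Finset.subset_union_left) hA
    (by
      intro h5
      have : b0 ∈ A := by rw [h5, hWAB]; exact Finset.mem_union_right _ hb0
      exact (Finset.disjoint_left.mp hdis) this hb0)
  have hbB : b ∈ B := by
    rw [hWAB, Finset.mem_union] at hb
    exact hb.resolve_left hbA
  obtain ⟨C', hC'1, hC'2, hC'3, hC'4⟩ := exists_comp (W.erase a)
      (x := b) (Finset.mem_erase.mpr ⟨hab.ne', hb⟩)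
  exact cstar_aux h _ _ W A B a b C' hW hWAB hdis ha hbB hab horth hC'1 hC'2 hC'3 hC'4 rfl rfl

end R91.PSD
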