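import Mathlib
import Pool.Agent.R91.PSD.Cstar

/-!
# Steps 7 to 10
-/

set_option linter.unusedSectionVars false

namespace R91.PSD

universe u

variable {V : Type u} [Fintype V] [DecidableEq V] {G : SimpleGraph V}

/-- a form of acyclicity: outside vertices have at most one neighbour in a connected subset -/
def TreeP (G : SimpleGraph V) (W : Finset V) : Prop :=
  ∀ S ⊆ W, Conn G S → ∀ r ∈ W, r ∉ S → ∀ x ∈ S, ∀ y ∈ S, G.Adj r x → G.Adj r y → x = y

/-- Step 7 -/
theorem step7 (h : Nice G) {W : Finset V} (hW : MM G W) (ht : TreeP G W) {w p w' : V}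
    (hp : Priv G W w p) (hw' : w' ∈ W) : w' ∈ FF G W p := by
  have hF := FF_fort h hW hp.1
  have hwF : w ∈ FF G W p := (mem_FF h hW hp.1 hp).mpr (near_refl p)
  have hwp : w ≠ p := fun h1 => hp.1 (h1 ▸ hp.2.1)
  set S := (FF G W p).erase p with hS
  have hSW : S ⊆ W := by
    intro x hx
    rw [hS, Finset.mem_erase] at hx
    exact mem_of_FF hx.2 hx.1
  have hwS : w ∈ S := by rw [hS, Finset.mem_erase]; exact ⟨hwp, hwF⟩
  have hSc : Conn G S := by
    apply hF.1.erase (self_mem_FF W p) ⟨w, hwS⟩ (w := w)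
    intro x hx hpx
    exact (hp.2.2 x (mem_of_FF hx hpx.ne')).mp hpx
  suffices hSe : S = W by
    rw [← hSe, hS] at hw'
    exact Finset.mem_of_mem_erase hw'
  by_contra hne
  obtain ⟨x, hx, r, hr, hrS, hxr⟩ := hW.conn.cut hSW ⟨w, hwS⟩ hne
  have hrp : r ≠ p := fun h1 => hp.1 (h1 ▸ hr)
  apply hF.2 x r
  refine ⟨?_, ?_, ?_⟩
  · intro h1
    apply hrS
    rw [hS, Finset.mem_erase]
    exact ⟨hrp, h1⟩
  · rw [hS, Finset.mem_erase] at hx
    exact hx.2
  · intro y hy
    constructor
    · intro hry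
      by_cases hyp : y = p
      · rw [hyp] at hry
        have := (hp.2.2 r hr).mp hry.symm
        rw [this] at hrS
        exact absurd hwS hrS
      · have hyS : y ∈ S := by rw [hS, Finset.mem_erase]; exact ⟨hyp, hy⟩
        exact ht S hSW hSc r hr hrS y hyS x hx hry hxr.symm
    · rintro rfl
      exact hxr.symm

theorem near_reps (h : Nice G) {W : Finset V} (hW : MM G W) (ht : TreeP G W) {w w' p p' : V}
    (hp : Priv G W w p) (hp' : Priv G W w' p') : near G p p' :=
  (mem_FF h hW hp.1 hp').mp (step7 h hW ht hp hp'.2.1)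

theorem treeP_singleton (x : V) : TreeP G {x} := by
  intro S hS hSc r hr hrS
  obtain ⟨y, hy⟩ := hSc.1
  have h1 := hS hy
  rw [Finset.mem_singleton] at h1 hr
  rw [hr, ← h1] at hrS
  exact absurd hy hrS

theorem treeP_insert {T : Finset V} (hT : TreeP G T) {t v : V} (hv : Priv G T t v) :
    TreeP G (insert v T) := by
  intro S hS hSc r hr hrS x hx y hy hrx hry
  have hmem : ∀ z ∈ S, z ≠ v → z ∈ T := by
    intro z hz hzv
    rcases Finset.mem_insert.mp (hS hz) with h1 | h1
    · exact absurd h1 hzv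
    · exact h1
  by_cases hrv : r = v
  · subst hrv
    have hxv : x ≠ r := fun h1 => hrS (h1 ▸ hx)
    have hyv : y ≠ r := fun h1 => hrS (h1 ▸ hy)
    rw [(hv.2.2 x (hmem x hx hxv)).mp hrx, (hv.2.2 y (hmem y hy hyv)).mp hry]
  · have hrT : r ∈ T := by
      rcases Finset.mem_insert.mp hr with h1 | h1
      · exact absurd h1 hrv
      · exact h1
    by_cases hvS : v ∈ S
    · have haux : ∀ y ∈ S, y ≠ v → ¬ G.Adj r v := by
        intro y hy hyv hrv'
        have h1 : r = t := (hv.2.2 r hrT).mp hrv'.symm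
        obtain ⟨z, hz, hvz⟩ := hSc.exists_nbr hvS hy hyv.symm
        have h2 := (hv.2.2 z (hmem z hz hvz.ne')).mp hvz
        rw [h1, ← h2] at hrS
        exact hrS hz
      by_cases hxv : x = v
      · by_cases hyv : y = v
        · rw [hxv, hyv]
        · rw [hxv] at hrx
          exact absurd hrx (haux y hy hyv)
      · by_cases hyv : y = v
        · rw [hyv] at hry
          exact absurd hry (haux x hx hxv)
        · have hSc' : Conn G (S.erase v) := by
            apply hSc.erase hvS ⟨x, Finset.mem_erase.mpr ⟨hxv, hx⟩⟩ (w := t)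
            intro z hz hvz
            exact (hv.2.2 z (hmem z hz hvz.ne')).mp hvz
          apply hT (S.erase v) _ hSc' r hrT _ x (Finset.mem_erase.mpr ⟨hxv, hx⟩) y
            (Finset.mem_erase.mpr ⟨hyv, hy⟩) hrx hry
          · intro z hz
            rw [Finset.mem_erase] at hz
            exact hmem z hz.2 hz.1
          · intro h1
            exact hrS (Finset.mem_of_mem_erase h1)
    · apply hT S _ hSc r hrT hrS x hx y hy hrx hry
      intro z hz
      exact hmem z hz (fun h1 => hvS (h1 ▸ hz))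

theorem priv_singleton {e f : V} (hef : G.Adj e f) : Priv G {f} f e := by
  refine ⟨by simpa using hef.ne, by simp, ?_⟩
  intro x hx
  rw [Finset.mem_singleton] at hx
  subst hx
  simp [hef]

theorem treeP_pair {e f : V} (hef : G.Adj e f) : TreeP G {e, f} :=
  treeP_insert (treeP_singleton f) (priv_singleton hef)

theorem priv_pair {a b c : V} (hab : G.Adj a b) (hbc : b ≠ c) (hac : a ≠ c) (hnac : ¬ G.Adj a c) :
    Priv G {b, c} b a := by
  refine ⟨?_, by simp, ?_⟩
  · simp [hab.ne, hac]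
  · intro x hx
    rw [Finset.mem_insert, Finset.mem_singleton] at hx
    rcases hx with rfl | rfl
    · simp [hab]
    · simp [hnac, hbc.symm]

theorem treeP_path {a b c : V} (hab : G.Adj a b) (hbc : G.Adj b c) (hac : a ≠ c)
    (hnac : ¬ G.Adj a c) : TreeP G {a, b, c} :=
  treeP_insert (treeP_pair hbc) (priv_pair hab hbc.ne hac hnac)

theorem conn_path {a b c : V} (hab : G.Adj a b) (hbc : G.Adj b c) : Conn G {a, b, c} :=
  (conn_pair hbc).insert (by simp) hab

/-- Step 8 -/
theorem step8 (h : Nice G) (hnc : ∃ x y : V, x ≠ y ∧ ¬ G.Adj x y) {T : Finset V}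
    (hTc : Conn G T) (hT : Ind G T) (hTM : ¬ MM G T) :
    ∃ v t, Priv G T t v ∧ Ind G (insert v T) := by
  obtain ⟨W, hTW, hW⟩ := exists_MM h hnc hTc hT
  have hne : T ≠ W := by rintro rfl; exact hTM hW
  by_contra hcon
  push Not at hcon
  apply cstar h hW (A := T) (B := W \ T) (by rw [Finset.union_sdiff_of_subset hTW])
    Finset.disjoint_sdiff hTc.1
  · rw [Finset.sdiff_nonempty]
    intro h1
    exact hne (Finset.Subset.antisymm hTW h1)
  · intro a ha b hb p q hp hq hn
    rw [Finset.mem_sdiff] at hb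
    have hp' : Priv G T a p := ⟨fun h1 => hp.1 (hTW h1), ha, fun x hx => hp.2.2 x (hTW hx)⟩
    have h1 := hcon p a hp'
    unfold Ind at h1
    push Not at h1
    obtain ⟨F, hF, hFf⟩ := h1
    have h2 := FF_eq h hW hp.1 (hF.trans (Finset.insert_subset_insert p hTW)) hFf
    have h3 : b ∈ FF G W p := (mem_FF h hW hp.1 hq).mpr hn
    rw [← h2] at h3
    rcases Finset.mem_insert.mp (hF h3) with h4 | h4
    · exact hp.1 (h4 ▸ hb.1)
    · exact hb.2 h4

theorem exists_tree_MM (h : Nice G) (hnc : ∃ x y : V, x ≠ y ∧ ¬ G.Adj x y) {T : Finset V}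
    (hTc : Conn G T) (hT : Ind G T) (hTt : TreeP G T) : ∃ W, T ⊆ W ∧ MM G W ∧ TreeP G W := by
  classical
  obtain ⟨W, hW, hmax⟩ := Finset.exists_max_image
    (Finset.univ.filter (fun W : Finset V => T ⊆ W ∧ Conn G W ∧ Ind G W ∧ TreeP G W)) Finset.card
    ⟨T, by simp [hTc, hT, hTt]⟩
  simp only [Finset.mem_filter, Finset.mem_univ, true_and] at hW hmax
  refine ⟨W, hW.1, ?_, hW.2.2.2⟩
  by_contra hWM
  obtain ⟨v, t, hv, hI⟩ := step8 h hnc hW.2.1 hW.2.2.1 hWM
  have := hmax (insert v W) ⟨hW.1.trans (Finset.subset_insert _ _),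
    hW.2.1.insert hv.2.1 ((hv.2.2 t hv.2.1).mpr rfl), hI, treeP_insert hW.2.2.2 hv⟩
  rw [Finset.card_insert_of_notMem hv.1] at this
  omega

theorem exists_last (h : Nice G) (hnc : ∃ x y : V, x ≠ y ∧ ¬ G.Adj x y) {T : Finset V}
    (hTc : Conn G T) (hT : Ind G T) (hTM : ¬ MM G T) :
    ∃ T' v t, T ⊆ T' ∧ Conn G T' ∧ Priv G T' t v ∧ MM G (insert v T') := by
  classical
  obtain ⟨W, hW, hmax⟩ := Finset.exists_max_image
    (Finset.univ.filter (fun W : Finset V => T ⊆ W ∧ Conn G W ∧ Ind G W ∧ ¬ MM G W)) Finset.card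
    ⟨T, by simp [hTc, hT, hTM]⟩
  simp only [Finset.mem_filter, Finset.mem_univ, true_and] at hW hmax
  obtain ⟨v, t, hv, hI⟩ := step8 h hnc hW.2.1 hW.2.2.1 hW.2.2.2
  refine ⟨W, v, t, hW.1, hW.2.1, hv, ?_⟩
  by_contra hWM
  have := hmax (insert v W) ⟨hW.1.trans (Finset.subset_insert _ _),
    hW.2.1.insert hv.2.1 ((hv.2.2 t hv.2.1).mpr rfl), hI, hWM⟩
  rw [Finset.card_insert_of_notMem hv.1] at this
  omega

theorem noncomplete_of_not_twins {e f : V} (hnt : ¬ Twins G e f) :
    ∃ x y : V, x ≠ y ∧ ¬ G.Adj x y := by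
  by_contra hcon
  push Not at hcon
  apply hnt
  have hall : ∀ x y : V, near G x y := by
    intro x y
    by_cases hxy : x = y
    · exact Or.inl hxy
    · exact Or.inr (hcon x y hxy)
  intro z
  exact ⟨fun _ => hall _ _, fun _ => hall _ _⟩

/-- Step 9 -/
theorem step9 (h : Nice G) {e f : V} (hef : G.Adj e f) (hnt : ¬ Twins G e f) :
    ∃ g, ¬ near G g e ∧ G.Adj g f ∧ Fort G {g, e, f} := by
  classical
  obtain ⟨W, hefW, hW, htW⟩ := exists_tree_MM h (noncomplete_of_not_twins hnt) (conn_pair hef)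
    (ind_pair h hef hnt) (treeP_pair hef)
  have heW : e ∈ W := hefW (by simp)
  have hfW : f ∈ W := hefW (by simp)
  have hne := hef.ne
  choose! r hr using fun w (hw : w ∈ W) => h.pp W hW.conn hW.ind w hw
  have hadj : ∀ w ∈ W, G.Adj (r w) w := fun w hw => ((hr w hw).2.2 w hw).mpr rfl
  have hrinj : ∀ w ∈ W, ∀ w' ∈ W, r w = r w' → w = w' := by
    intro w hw w' hw' hww
    apply ((hr w' hw').2.2 w hw).mp
    rw [← hww]
    exact hadj w hw
  set Z0 := (W.erase f).image r with hZ0
  have hreZ0 : r e ∈ Z0 := Finset.mem_image.mpr ⟨e, Finset.mem_erase.mpr ⟨hne, heW⟩, rfl⟩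
  have hZ0W : ∀ z ∈ Z0, z ∉ W := by
    intro z hz
    rw [hZ0, Finset.mem_image] at hz
    obtain ⟨w, hw, rfl⟩ := hz
    exact (hr w (Finset.mem_of_mem_erase hw)).1
  have hZ0c : Conn G Z0 := by
    refine ⟨⟨_, hreZ0⟩, ?_⟩
    intro A hA hAne hcl
    apply Finset.Subset.antisymm hA
    intro z hz
    obtain ⟨a, ha⟩ := hAne
    have ha' := hA ha
    have hz' := hz
    rw [hZ0, Finset.mem_image] at ha' hz'
    obtain ⟨w, hw, hwa⟩ := ha'
    obtain ⟨w', hw', hwz⟩ := hz'
    have hn : near G a z := by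
      rw [← hwa, ← hwz]
      exact near_reps h hW htW (hr w (Finset.mem_of_mem_erase hw))
        (hr w' (Finset.mem_of_mem_erase hw'))
    rcases hn with h1 | h1
    · rw [← h1]; exact ha
    · exact hcl a ha z hz h1
  have hZc : Conn G (insert e Z0) := hZ0c.insert hreZ0 (hadj e heW).symm
  have hZi : Ind G (insert e Z0) := by
    intro F hF hFf
    by_cases heF : e ∈ F
    · apply hFf.2 e f
      refine ⟨?_, heF, ?_⟩
      · intro hfF
        rcases Finset.mem_insert.mp (hF hfF) with h1 | h1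
        · exact hne h1.symm
        · exact hZ0W f h1 hfW
      · intro x hx
        rcases Finset.mem_insert.mp (hF hx) with h1 | h1
        · subst h1
          simp [hef.symm]
        · have hxe : x ≠ e := by rintro rfl; exact hZ0W x h1 heW
          rw [hZ0, Finset.mem_image] at h1
          obtain ⟨w, hw, rfl⟩ := h1
          rw [Finset.mem_erase] at hw
          constructor
          · intro h2
            exact absurd (((hr w hw.2).2.2 f hfW).mp h2.symm) hw.1.symm
          · intro h2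
            exact absurd h2 hxe
    · have hFZ : F ⊆ Z0 := by
        intro x hx
        rcases Finset.mem_insert.mp (hF hx) with h1 | h1
        · rw [h1] at hx; exact absurd hx heF
        · exact h1
      obtain ⟨z, hz⟩ := hFf.1.1
      have hz' := hFZ hz
      rw [hZ0, Finset.mem_image] at hz'
      obtain ⟨w, hw, rfl⟩ := hz'
      rw [Finset.mem_erase] at hw
      apply hFf.2 (r w) w
      refine ⟨fun h1 => hZ0W w (hFZ h1) hw.2, hz, ?_⟩
      intro x hx
      have hx' := hFZ hx
      rw [hZ0, Finset.mem_image] at hx'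
      obtain ⟨w', hw', rfl⟩ := hx'
      rw [Finset.mem_erase] at hw'
      constructor
      · intro h1
        have := ((hr w' hw'.2).2.2 w hw.2).mp h1.symm
        rw [this]
      · intro h1
        rw [h1]
        exact (hadj w hw.2).symm
  obtain ⟨g, hg⟩ := h.pp _ hZc hZi (r e) (Finset.mem_insert_of_mem hreZ0)
  have hge : ¬ G.Adj g e := by
    intro h1
    have := (hg.2.2 e (by simp)).mp h1
    exact (hr e heW).1 (this ▸ heW)
  have hgne : g ≠ e := by
    rintro rfl
    exact hg.1 (by simp)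
  have hgr : G.Adj g (r e) := (hg.2.2 (r e) hg.2.1).mpr rfl
  have hgW : g ∉ W := by
    intro h1
    have := ((hr e heW).2.2 g h1).mp hgr.symm
    exact hgne this
  have heF : e ∈ FF G W g := (mem_FF h hW hgW (hr e heW)).mpr (Or.inr hgr)
  have hsub : ∀ w ∈ FF G W g, w ≠ g → w = e ∨ w = f := by
    intro w hw hwg
    by_contra hcon
    push Not at hcon
    have hwW := mem_of_FF hw hwg
    have h1 := (mem_FF h hW hgW (hr w hwW)).mp hw
    have h2 : r w ∈ insert e Z0 := Finset.mem_insert_of_mem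
      (Finset.mem_image.mpr ⟨w, Finset.mem_erase.mpr ⟨hcon.2, hwW⟩, rfl⟩)
    have h3 : g ≠ r w := by
      intro h4
      exact hg.1 (h4 ▸ h2)
    have h4 := (hg.2.2 (r w) h2).mp (h1.adj h3)
    exact hcon.1 (hrinj w hwW e heW h4)
  have hFf := FF_fort h hW hgW
  have hfF : f ∈ FF G W g := by
    obtain ⟨y, hy, hye, hey⟩ := hFf.other h heF
    have hyg : y ≠ g := by rintro rfl; exact hge hey.symm
    rcases hsub y hy hyg with h1 | h1
    · exact absurd h1 hye
    · rw [← h1]; exact hy
  have hgf : G.Adj g f := by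
    obtain ⟨y, hy, hyg, hgy⟩ := hFf.other h (self_mem_FF W g)
    rcases hsub y hy hyg with h1 | h1
    · rw [h1] at hgy; exact absurd hgy hge
    · rw [← h1]; exact hgy
  have hFe : FF G W g = {g, e, f} := by
    ext x
    simp only [Finset.mem_insert, Finset.mem_singleton]
    constructor
    · intro hx
      by_cases hxg : x = g
      · exact Or.inl hxg
      · exact Or.inr (hsub x hx hxg)
    · rintro (rfl | rfl | rfl)
      · exact self_mem_FF W x
      · exact heF
      · exact hfF
  refine ⟨g, ?_, hgf, by rw [← hFe]; exact hFf⟩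
  rintro (h1 | h1)
  · exact hgne h1
  · exact hge h1

/-- Step 10 -/
theorem step10 (h : Nice G) {φ : V} {U : Finset V} (hUφ : ∀ x ∈ U, ¬ near G x φ)
    (hUc : Conn G U) (hU : Ind G U) {u u' : V} (hu : u ∈ U) (hu' : u' ∈ U) (huu : u ≠ u') :
    ∃ b, ¬ near G b φ ∧ Priv G U u b := by
  obtain ⟨b0, hb0⟩ := h.pp U hUc hU u hu
  have hb0u : G.Adj b0 u := (hb0.2.2 u hu).mpr rfl
  by_cases hb : near G b0 φ
  · have hb0φ : b0 ≠ φ := by
      rintro rfl
      exact hUφ u hu (Or.inr hb0u.symm)
    have hadj : G.Adj φ b0 := (hb.adj hb0φ).symm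
    have hnt : ¬ Twins G φ b0 := by
      intro ht
      exact hUφ u hu ((ht u).mpr (Or.inr hb0u.symm))
    obtain ⟨g, hgφ, hgb, hF⟩ := step9 h hadj hnt
    have hkey : ∀ y ∈ U, y ≠ g → (G.Adj y g ↔ y = u) := by
      intro y hy hyg
      have hyφ := hUφ y hy
      have hyφ' : y ≠ φ := fun h1 => hyφ (Or.inl h1)
      have hyφ'' : ¬ G.Adj y φ := fun h1 => hyφ (Or.inr h1)
      have hyb : y ≠ b0 := by rintro rfl; exact hb0.1 hy
      have hyF : y ∉ ({g, φ, b0} : Finset V) := by simp [hyg, hyφ', hyb]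
      have h1 : G.Adj y b0 ↔ y = u := by
        rw [← hb0.2.2 y hy]
        exact ⟨fun h => h.symm, fun h => h.symm⟩
      have hgφ' : g ≠ φ := fun h1 => hgφ (Or.inl h1)
      rw [← h1]
      constructor
      · intro h2
        by_contra h3
        apply hF.2 g y
        refine ⟨hyF, by simp, ?_⟩
        intro x hx
        simp only [Finset.mem_insert, Finset.mem_singleton] at hx
        rcases hx with rfl | rfl | rfl
        · simp [h2]
        · simp [hyφ'', hgφ'.symm]
        · simp [h3, hgb.ne']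
      · intro h2
        by_contra h3
        apply hF.2 b0 y
        refine ⟨hyF, by simp, ?_⟩
        intro x hx
        simp only [Finset.mem_insert, Finset.mem_singleton] at hx
        rcases hx with rfl | rfl | rfl
        · simp [h3, hgb.ne]
        · simp [hyφ'', hb0φ.symm]
        · simp [h2]
    have hgU : g ∉ U := by
      intro hgU
      have hgu : g = u := (hb0.2.2 g hgU).mp hgb.symm
      subst hgu
      obtain ⟨y, hy, hgy⟩ := hUc.exists_nbr hgU hu' huu
      have := (hkey y hy hgy.ne').mp hgy.symm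
      exact hgy.ne this.symm
    refine ⟨g, hgφ, hgU, hu, ?_⟩
    intro x hx
    have hxg : x ≠ g := fun h1 => hgU (h1 ▸ hx)
    rw [← hkey x hx hxg]
    exact ⟨fun h => h.symm, fun h => h.symm⟩
  · exact ⟨b0, hb, hb0⟩

end R91.PSD
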