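import Mathlib
import Pool.Agent.R91.PSD.Tree

/-!
# Passing to a component of the non-neighbourhood of a vertex
-/

set_option linter.unusedSectionVars false

namespace R91.PSD

universe u

variable {V : Type u} [Fintype V] [DecidableEq V] {G : SimpleGraph V}

/-- the induced graph on a finset -/
def HH (G : SimpleGraph V) (K : Finset V) : SimpleGraph {x // x ∈ K} :=
  G.comap (fun x => x.1)

theorem HH_adj {K : Finset V} (x y : {x // x ∈ K}) : (HH G K).Adj x y ↔ G.Adj x.1 y.1 := Iff.rfl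

/-- the image in the big graph -/
def up {K : Finset V} (F : Finset {x // x ∈ K}) : Finset V := F.map (Function.Embedding.subtype _)

theorem mem_up {K : Finset V} {F : Finset {x // x ∈ K}} {x : V} :
    x ∈ up F ↔ ∃ hx : x ∈ K, (⟨x, hx⟩ : {x // x ∈ K}) ∈ F := by
  unfold up
  rw [Finset.mem_map]
  constructor
  · rintro ⟨y, hy, rfl⟩
    exact ⟨y.2, hy⟩
  · rintro ⟨hx, h⟩
    exact ⟨⟨x, hx⟩, h, rfl⟩

theorem mem_up' {K : Finset V} {F : Finset {x // x ∈ K}} {x : {x // x ∈ K}} :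
    x.1 ∈ up F ↔ x ∈ F := by
  rw [mem_up]
  exact ⟨fun ⟨_, h⟩ => h, fun h => ⟨x.2, h⟩⟩

theorem up_sub {K : Finset V} (F : Finset {x // x ∈ K}) : up F ⊆ K := by
  intro x hx
  exact (mem_up.mp hx).1

theorem conn_up {K : Finset V} {F : Finset {x // x ∈ K}} :
    Conn (HH G K) F ↔ Conn G (up F) := by
  classical
  constructor
  · rintro ⟨⟨a, ha⟩, h⟩
    refine ⟨⟨a.1, mem_up'.mpr ha⟩, ?_⟩
    intro A hA hAne hcl
    have h1 := h (F.filter (fun x => x.1 ∈ A)) (Finset.filter_subset _ _)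
      (by
        obtain ⟨y, hy⟩ := hAne
        obtain ⟨hyK, hyF⟩ := mem_up.mp (hA hy)
        exact ⟨⟨y, hyK⟩, by simp [hyF, hy]⟩)
      (by
        intro x hx y hy hxy
        rw [Finset.mem_filter] at hx ⊢
        exact ⟨hy, hcl x.1 hx.2 y.1 (mem_up'.mpr hy) hxy⟩)
    apply Finset.Subset.antisymm hA
    intro y hy
    obtain ⟨hyK, hyF⟩ := mem_up.mp hy
    rw [← h1, Finset.mem_filter] at hyF
    exact hyF.2
  · rintro ⟨⟨a, ha⟩, h⟩
    obtain ⟨haK, haF⟩ := mem_up.mp ha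
    refine ⟨⟨_, haF⟩, ?_⟩
    intro A hA hAne hcl
    have h1 := h (up A)
      (by
        intro x hx
        obtain ⟨hxK, hxA⟩ := mem_up.mp hx
        exact mem_up.mpr ⟨hxK, hA hxA⟩)
      (by
        obtain ⟨y, hy⟩ := hAne
        exact ⟨y.1, mem_up'.mpr hy⟩)
      (by
        intro x hx y hy hxy
        obtain ⟨hxK, hxA⟩ := mem_up.mp hx
        obtain ⟨hyK, hyF⟩ := mem_up.mp hy
        exact mem_up.mpr ⟨hyK, hcl ⟨x, hxK⟩ hxA ⟨y, hyK⟩ hyF hxy⟩)
    ext x
    rw [← mem_up', h1, mem_up']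

theorem priv_up {K : Finset V} {F : Finset {x // x ∈ K}} {w b : {x // x ∈ K}} :
    Priv (HH G K) F w b ↔ Priv G (up F) w.1 b.1 := by
  constructor
  · rintro ⟨h1, h2, h3⟩
    refine ⟨fun h => h1 (mem_up'.mp h), mem_up'.mpr h2, ?_⟩
    intro x hx
    obtain ⟨hxK, hxF⟩ := mem_up.mp hx
    have := h3 ⟨x, hxK⟩ hxF
    rw [HH_adj] at this
    rw [this]
    exact Subtype.ext_iff
  · rintro ⟨h1, h2, h3⟩
    refine ⟨fun h => h1 (mem_up'.mpr h), mem_up'.mp h2, ?_⟩
    intro x hx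
    rw [HH_adj, h3 x.1 (mem_up'.mpr hx)]
    exact Subtype.ext_iff.symm

theorem transfer (h : Nice G) {φ : V} {K : Finset V} (hKc : Conn G K)
    (hK2 : ∃ x ∈ K, ∃ y ∈ K, x ≠ y) (hKφ : ∀ x ∈ K, ¬ near G x φ)
    (hKcl : ∀ x ∈ K, ∀ y, ¬ near G y φ → G.Adj x y → y ∈ K) :
    Nice (HH G K) ∧ ∀ U : Finset {x // x ∈ K}, Ind G (up U) → Ind (HH G K) U := by
  classical
  have hnbr : ∀ x ∈ K, ∃ y ∈ K, G.Adj x y := by
    intro x hx
    obtain ⟨a, ha, b, hb, hab⟩ := hK2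
    by_cases h1 : x = a
    · exact hKc.exists_nbr hx hb (h1 ▸ hab)
    · exact hKc.exists_nbr hx ha h1
  have hupK : up (Finset.univ : Finset {x // x ∈ K}) = K := by
    ext x
    rw [mem_up]
    exact ⟨fun ⟨h, _⟩ => h, fun h => ⟨h, Finset.mem_univ _⟩⟩
  -- privates exist for connected G-independent sets
  have hpriv : ∀ U : Finset {x // x ∈ K}, Conn (HH G K) U → Ind G (up U) → ∀ u ∈ U,
      ∃ b, Priv (HH G K) U u b := by
    intro U hUc hU u hu
    by_cases h2 : ∃ u' ∈ U, u ≠ u'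
    · obtain ⟨u', hu', huu⟩ := h2
      obtain ⟨b, hb1, hb2⟩ := step10 h (φ := φ) (U := up U) (fun x hx => hKφ x (up_sub U hx))
        (conn_up.mp hUc) hU (u := u.1) (u' := u'.1) (mem_up'.mpr hu) (mem_up'.mpr hu')
        (fun h1 => huu (Subtype.ext h1))
      have hbK : b ∈ K := hKcl u.1 u.2 b hb1 ((hb2.2.2 u.1 hb2.2.1).mpr rfl).symm
      exact ⟨⟨b, hbK⟩, priv_up.mpr hb2⟩
    · push Not at h2
      obtain ⟨y, hy, huy⟩ := hnbr u.1 u.2
      refine ⟨⟨y, hy⟩, ?_, hu, ?_⟩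
      · intro h3
        have := h2 _ h3
        rw [this] at huy
        exact huy.ne rfl
      · intro x hx
        have := h2 x hx
        subst this
        rw [HH_adj]
        simp [huy.symm]
  have hind1 : ∀ U : Finset {x // x ∈ K}, Ind (HH G K) U → Ind G (up U) := by
    intro U hU F hF hFf
    have hFK : F ⊆ K := hF.trans (up_sub U)
    set F' : Finset {x // x ∈ K} := Finset.univ.filter (fun x => x.1 ∈ F) with hF'
    have hupF : up F' = F := by
      ext x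
      rw [mem_up]
      constructor
      · rintro ⟨hx, h1⟩
        simpa [hF'] using h1
      · intro hx
        exact ⟨hFK hx, by simpa [hF'] using hx⟩
    apply hU F'
    · intro x hx
      have h1 : x.1 ∈ F := by simpa [hF'] using hx
      exact mem_up'.mp (hF h1)
    · refine ⟨conn_up.mpr (by rw [hupF]; exact hFf.1), ?_⟩
      intro w b hwb
      have := priv_up.mp hwb
      rw [hupF] at this
      exact hFf.2 _ _ this
  refine ⟨⟨?_, ?_, ?_⟩, ?_⟩
  · rw [conn_up, hupK]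
    exact hKc
  · obtain ⟨x, hx, y, hy, hxy⟩ := hK2
    exact ⟨⟨x, hx⟩, ⟨y, hy⟩, fun h1 => hxy (congrArg Subtype.val h1)⟩
  · intro W hWc hW w hw
    exact hpriv W hWc (hind1 W hW) w hw
  · intro U hU F hF hFf
    have hupF : up F ⊆ up U := by
      intro x hx
      obtain ⟨hxK, hxF⟩ := mem_up.mp hx
      exact mem_up.mpr ⟨hxK, hF hxF⟩
    obtain ⟨w, hw⟩ := hFf.1.1
    obtain ⟨b, hb⟩ := hpriv F hFf.1 (hU.mono hupF) w hw
    exact hFf.2 w b hb

end R91.PSD
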