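import Mathlib
import Pool.Agent.R91.PSD.Transfer
import Pool.Agent.R91.PSD.Friendship

/-!
# Steps 11 to 15: there is no independent induced path on three vertices
-/

set_option linter.unusedSectionVars false

namespace R91.PSD

universe u

section

variable {V : Type u} [Fintype V] [DecidableEq V] {G : SimpleGraph V}

theorem pair_not_twins {a b c : V} (hbc : G.Adj b c) (hac : a ≠ c)
    (hnac : ¬ G.Adj a c) : ¬ Twins G a b := by
  intro ht
  have h1 := (ht c).mpr (Or.inr hbc.symm)
  exact hnac (h1.symm.adj hac)

theorem MM_move (h : Nice G) {e f : V} (hef : e ≠ f) (hM : MM G {e, f}) (x : V) :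
    ∃ y, y ≠ x ∧ MM G {x, y} := by
  have hconn : G.Adj e f := by
    obtain ⟨y, hy, hey⟩ := hM.nbr (w := e) (by simp)
    rw [Finset.mem_insert, Finset.mem_singleton] at hy
    rcases hy with rfl | rfl
    · exact absurd rfl hey.ne
    · exact hey
  by_cases hx : x ∈ ({e, f} : Finset V)
  · rw [Finset.mem_insert, Finset.mem_singleton] at hx
    rcases hx with rfl | rfl
    · exact ⟨f, hef.symm, hM⟩
    · exact ⟨e, hef, by rw [Finset.pair_comm]; exact hM⟩
  · have hF := FF_fort h hM hx
    obtain ⟨y, hy, hyx, hxy⟩ := hF.other h (self_mem_FF {e, f} x)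
    -- the general argument with `{y, z} = {e, f}`
    have main : ∀ y z : V, y ≠ z → ({e, f} : Finset V) = {y, z} → G.Adj y z →
        y ∈ FF G {e, f} x → y ≠ x → G.Adj x y → ∃ y, y ≠ x ∧ MM G {x, y} := by
      intro y z hyz hset hadj hy hyx hxy
      rw [hset] at hx hy hF hM
      have hzx : z ≠ x := by rintro rfl; exact hx (by simp)
      by_cases hz : z ∈ FF G {y, z} x
      · refine ⟨y, hyx, ?_⟩
        have he : insert x (({y, z} : Finset V).erase z) = {x, y} := by
          ext t
          simp only [Finset.mem_insert, Finset.mem_erase, Finset.mem_singleton]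
          constructor
          · rintro (h1 | ⟨h1, h2 | h2⟩)
            · exact Or.inl h1
            · exact Or.inr h2
            · exact absurd h2 h1
          · rintro (h1 | h1)
            · exact Or.inl h1
            · exact Or.inr ⟨by rw [h1]; exact hyz, Or.inl h1⟩
        rw [← he]
        exact exchange h hM hx (by simp) hz (by rw [he]; exact conn_pair hxy)
      · have hFe : FF G {y, z} x = {x, y} := by
          ext t
          simp only [Finset.mem_insert, Finset.mem_singleton]
          constructor
          · intro ht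
            by_cases htx : t = x
            · exact Or.inl htx
            · have := mem_of_FF ht htx
              rw [Finset.mem_insert, Finset.mem_singleton] at this
              rcases this with h1 | h1
              · exact Or.inr h1
              · rw [h1] at ht; exact absurd ht hz
          · rintro (h1 | h1)
            · rw [h1]; exact self_mem_FF _ _
            · rw [h1]; exact hy
        have ht : Twins G x y := by
          by_contra hnt
          have := ind_pair h hxy hnt _ (Finset.Subset.refl _)
          rw [hFe] at hF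
          exact this hF
        have hxz : G.Adj x z := by
          have h1 := (ht z).mpr (Or.inr hadj.symm)
          exact (h1.adj hzx).symm
        refine ⟨z, hzx, ?_⟩
        have he : insert x (({y, z} : Finset V).erase y) = {x, z} := by
          ext t
          simp only [Finset.mem_insert, Finset.mem_erase, Finset.mem_singleton]
          constructor
          · rintro (h1 | ⟨h1, h2 | h2⟩)
            · exact Or.inl h1
            · exact absurd h2 h1
            · exact Or.inr h2
          · rintro (h1 | h1)
            · exact Or.inl h1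
            · exact Or.inr ⟨by rw [h1]; exact hyz.symm, Or.inr h1⟩
        rw [← he]
        exact exchange h hM hx (by simp) hy (by rw [he]; exact conn_pair hxz)
    have hyef := mem_of_FF hy hyx
    rw [Finset.mem_insert, Finset.mem_singleton] at hyef
    rcases hyef with rfl | rfl
    · exact main y f hef rfl hconn hy hyx hxy
    · exact main y e hef.symm (Finset.pair_comm _ _) hconn.symm hy hyx hxy

/-- Step 12 -/
theorem no_MM_two (h : Nice G) {a b c : V} (hab : G.Adj a b) (hbc : G.Adj b c) (hac : a ≠ c)
    (hnac : ¬ G.Adj a c) (hI : Ind G {a, b, c}) {e f : V} (hef : e ≠ f) : ¬ MM G {e, f} := by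
  intro hM
  obtain ⟨x, hxa, hMx⟩ := MM_move h hef hM a
  have hcontra : ¬ MM G {a, b} := by
    intro h1
    apply h1.max c _ ⟨b, by simp, hbc.symm⟩
    · have : (insert c {a, b} : Finset V) = {a, b, c} := by
        ext t; simp only [Finset.mem_insert, Finset.mem_singleton]; tauto
      rw [this]; exact hI
    · simp [hac.symm, hbc.ne']
  by_cases hxb : x = b
  · rw [hxb] at hMx
    exact hcontra hMx
  · have hbW : b ∉ ({a, x} : Finset V) := by simp [hab.ne', Ne.symm hxb]
    have hF := FF_fort h hMx hbW
    have hxF : x ∈ FF G {a, x} b := by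
      by_contra hx
      have hsub : FF G {a, x} b ⊆ {a, b} := by
        intro t ht
        by_cases htb : t = b
        · simp [htb]
        · have := mem_of_FF ht htb
          rw [Finset.mem_insert, Finset.mem_singleton] at this
          rcases this with h1 | h1
          · simp [h1]
          · rw [h1] at ht; exact absurd ht hx
      exact ind_pair h hab (pair_not_twins hbc hac hnac) _ hsub hF
    have he : insert b (({a, x} : Finset V).erase x) = {a, b} := by
      ext t
      simp only [Finset.mem_insert, Finset.mem_erase, Finset.mem_singleton]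
      constructor
      · rintro (h1 | ⟨h1, h2 | h2⟩)
        · exact Or.inr h1
        · exact Or.inl h2
        · exact absurd h2 h1
      · rintro (h1 | h1)
        · exact Or.inr ⟨by rw [h1]; exact hxa.symm, Or.inl h1⟩
        · exact Or.inl h1
    apply hcontra
    rw [← he]
    exact exchange h hMx hbW (by simp) hxF (by rw [he]; exact conn_pair hab)

/-- Step 11, first part -/
theorem path_MM (h : Nice G) (hnc : ∃ x y : V, x ≠ y ∧ ¬ G.Adj x y)
    (ih : ∀ (K : Finset V), K.card < Fintype.card V → Nice (HH G K) →
      ∀ a b c : {x // x ∈ K}, (HH G K).Adj a b → (HH G K).Adj b c → a ≠ c →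
        ¬ (HH G K).Adj a c → ¬ Ind (HH G K) {a, b, c})
    {a b c : V} (hab : G.Adj a b) (hbc : G.Adj b c) (hac : a ≠ c)
    (hnac : ¬ G.Adj a c) (hI : Ind G {a, b, c}) : MM G {a, b, c} := by
  classical
  by_contra hM
  obtain ⟨T', v, t, hTT', hT'c, hv, hMM⟩ := exists_last h hnc (conn_path hab hbc) hI hM
  obtain ⟨φ, hφ⟩ := h.pp _ hMM.conn hMM.ind v (by simp)
  have hTφ : ∀ x ∈ T', ¬ near G x φ := by
    intro x hx hn
    have h1 : x ≠ φ := by
      rintro rfl
      exact hφ.1 (Finset.mem_insert_of_mem hx)
    have h2 := (hφ.2.2 x (Finset.mem_insert_of_mem hx)).mp (hn.adj h1).symm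
    exact hv.1 (h2 ▸ hx)
  have haT : a ∈ T' := hTT' (by simp)
  have hbT : b ∈ T' := hTT' (by simp)
  have hcT : c ∈ T' := hTT' (by simp)
  obtain ⟨K, hKY, haK, hKc, hKcl⟩ := exists_comp (G := G)
    (Finset.univ.filter (fun x => ¬ near G x φ)) (x := a) (by simp [hTφ a haT])
  have hT'K : T' ⊆ K := by
    apply hT'c.subset_of_closed _ hKcl haT haK
    intro x hx
    simp [hTφ x hx]
  have hKφ : ∀ x ∈ K, ¬ near G x φ := by
    intro x hx
    have := hKY hx
    simpa using this
  obtain ⟨hN, hInd⟩ := transfer h hKc ⟨a, haK, b, hT'K hbT, hab.ne⟩ hKφ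
    (by
      intro x hx y hy hxy
      exact hKcl x hx y (by simpa using hy) hxy)
  have hcard : K.card < Fintype.card V := by
    rw [← Finset.card_univ]
    apply Finset.card_lt_card
    rw [Finset.ssubset_iff_of_subset (Finset.subset_univ _)]
    exact ⟨φ, Finset.mem_univ _, fun h1 => hKφ φ h1 (near_refl φ)⟩
  apply ih K hcard hN ⟨a, haK⟩ ⟨b, hT'K hbT⟩ ⟨c, hT'K hcT⟩ hab hbc
    (fun h1 => hac (congrArg Subtype.val h1)) hnac
  apply hInd
  have : up ({⟨a, haK⟩, ⟨b, hT'K hbT⟩, ⟨c, hT'K hcT⟩} : Finset {x // x ∈ K}) = {a, b, c} := by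
    ext t
    rw [mem_up]
    simp only [Finset.mem_insert, Finset.mem_singleton, Subtype.mk.injEq]
    constructor
    · rintro ⟨_, h1⟩
      exact h1
    · intro h1
      refine ⟨?_, h1⟩
      rcases h1 with rfl | rfl | rfl
      · exact haK
      · exact hT'K hbT
      · exact hT'K hcT
  rw [this]
  exact hI

/-- Step 13 -/
theorem step13 (h : Nice G) (hA : ∀ a b c : V, G.Adj a b → G.Adj b c → a ≠ c → ¬ G.Adj a c →
      Ind G {a, b, c} → MM G {a, b, c})
    (hB : ∀ e f : V, e ≠ f → ¬ MM G {e, f}) {e f : V} (hef : G.Adj e f)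
    (hnt : ¬ Twins G e f) :
    ∃ g, g ≠ e ∧ g ≠ f ∧ MM G {g, e, f} ∧ TreeP G {g, e, f} ∧
      ((G.Adj g e ∧ ¬ G.Adj g f) ∨ (G.Adj g f ∧ ¬ G.Adj g e)) := by
  obtain ⟨v, t, hv, hI⟩ := step8 h (noncomplete_of_not_twins hnt) (conn_pair hef)
    (ind_pair h hef hnt) (hB e f hef.ne)
  have hve : v ≠ e := by rintro rfl; exact hv.1 (by simp)
  have hvf : v ≠ f := by rintro rfl; exact hv.1 (by simp)
  have h1 := hv.2.2 e (by simp)
  have h2 := hv.2.2 f (by simp)
  have ht := hv.2.1
  rw [Finset.mem_insert, Finset.mem_singleton] at ht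
  rcases ht with rfl | rfl
  · have h3 : G.Adj v t := h1.mpr rfl
    have h4 : ¬ G.Adj v f := fun h5 => hef.ne' (h2.mp h5)
    exact ⟨v, hve, hvf, hA v t f h3 hef hvf h4 hI, treeP_path h3 hef hvf h4, Or.inl ⟨h3, h4⟩⟩
  · have h3 : G.Adj v t := h2.mpr rfl
    have h4 : ¬ G.Adj v e := fun h5 => hef.ne (h1.mp h5)
    have hset : ({v, e, t} : Finset V) = {v, t, e} := by
      rw [Finset.pair_comm e t]
    rw [hset] at hI
    exact ⟨v, hve, hvf, by rw [hset]; exact hA v t e h3 hef.symm hve h4 hI,
      by rw [hset]; exact treeP_path h3 hef.symm hve h4, Or.inr ⟨h3, h4⟩⟩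

theorem unique_of_MM (h : Nice G) {g x y : V} (hM : MM G {g, x, y}) (hgx : g ≠ x) (hgy : g ≠ y)
    (hn : near G g x ∨ near G g y) :
    ∃ z0, ¬ near G z0 x ∧ ¬ near G z0 y ∧ ∀ z, ¬ near G z x → ¬ near G z y → Twins G z z0 := by
  obtain ⟨z0, hz0⟩ := h.pp _ hM.conn hM.ind g (by simp)
  refine ⟨z0, ?_, ?_, ?_⟩
  · intro h1
    have h2 : z0 ≠ x := by rintro rfl; exact hz0.1 (by simp)
    exact hgx ((hz0.2.2 x (by simp)).mp (h1.adj h2)).symm
  · intro h1
    have h2 : z0 ≠ y := by rintro rfl; exact hz0.1 (by simp)
    exact hgy ((hz0.2.2 y (by simp)).mp (h1.adj h2)).symm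
  · intro z hzx hzy
    have hzg : z ≠ g := by
      rintro rfl
      rcases hn with h1 | h1
      · exact hzx h1
      · exact hzy h1
    have hzx' : z ≠ x := fun h1 => hzx (Or.inl h1)
    have hzy' : z ≠ y := fun h1 => hzy (Or.inl h1)
    have hzW : z ∉ ({g, x, y} : Finset V) := by simp [hzg, hzx', hzy']
    obtain ⟨t, ht, hzt⟩ := hM.dom h hzW
    have htg : t = g := by
      simp only [Finset.mem_insert, Finset.mem_singleton] at ht
      rcases ht with h1 | h1 | h1
      · exact h1
      · rw [h1] at hzt; exact absurd (Or.inr hzt) hzx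
      · rw [h1] at hzt; exact absurd (Or.inr hzt) hzy
    rw [htg] at hzt
    refine priv_twins h hM (w := g) ⟨hzW, by simp, ?_⟩ hz0
    intro s hs
    simp only [Finset.mem_insert, Finset.mem_singleton] at hs
    rcases hs with rfl | rfl | rfl
    · simp [hzt]
    · simp only [hgx.symm, iff_false]
      exact fun h1 => hzx (Or.inr h1)
    · simp only [hgy.symm, iff_false]
      exact fun h1 => hzy (Or.inr h1)

/-- Step 14 -/
theorem step14 (h : Nice G) (hA : ∀ a b c : V, G.Adj a b → G.Adj b c → a ≠ c → ¬ G.Adj a c →
      Ind G {a, b, c} → MM G {a, b, c})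
    (hB : ∀ e f : V, e ≠ f → ¬ MM G {e, f}) {x y : V} (hnt : ¬ Twins G x y) :
    ∃ z0, ¬ near G z0 x ∧ ¬ near G z0 y ∧ ∀ z, ¬ near G z x → ¬ near G z y → Twins G z z0 := by
  -- the adjacent case
  have hadjc : ∀ x y : V, G.Adj x y → ¬ Twins G x y →
      ∃ z0, ¬ near G z0 x ∧ ¬ near G z0 y ∧ ∀ z, ¬ near G z x → ¬ near G z y → Twins G z z0 := by
    intro x y hxy hnt
    obtain ⟨g, hgx, hgy, hM, -, hor⟩ := step13 h hA hB hxy hnt
    apply unique_of_MM h hM hgx hgy
    rcases hor with h1 | h1
    · exact Or.inl (Or.inr h1.1)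
    · exact Or.inr (Or.inr h1.1)
  have hnc := noncomplete_of_not_twins hnt
  have hxy : x ≠ y := by
    rintro rfl
    exact hnt (fun z => Iff.rfl)
  by_cases hadj : G.Adj x y
  · exact hadjc x y hadj hnt
  · -- a common neighbour
    obtain ⟨c, hxc, hyc⟩ : ∃ c, G.Adj x c ∧ G.Adj y c := by
      obtain ⟨s, hxs, hnts⟩ := nontwin_nbr h hnc x
      obtain ⟨g, hgx, hgs, hM, hT, hor⟩ := step13 h hA hB hxs hnts
      by_cases hyW : y ∈ ({g, x, s} : Finset V)
      · simp only [Finset.mem_insert, Finset.mem_singleton] at hyW
        rcases hyW with h1 | h1 | h1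
        · subst h1
          rcases hor with h2 | h2
          · exact absurd h2.1.symm hadj
          · exact ⟨s, hxs, h2.1⟩
        · exact absurd h1.symm hxy
        · rw [← h1] at hxs
          exact absurd hxs hadj
      · by_cases hys : G.Adj y s
        · exact ⟨s, hxs, hys⟩
        · obtain ⟨t, ht, hyt⟩ := hM.dom h hyW
          have htg : t = g := by
            simp only [Finset.mem_insert, Finset.mem_singleton] at ht
            rcases ht with h1 | h1 | h1
            · exact h1
            · rw [h1] at hyt; exact absurd hyt.symm hadj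
            · rw [h1] at hyt; exact absurd hyt hys
          rw [htg] at hyt
          by_cases hgx' : G.Adj g x
          · exact ⟨g, hgx'.symm, hyt⟩
          · have hpy : Priv G {g, x, s} g y := by
              refine ⟨hyW, by simp, ?_⟩
              intro r hr
              simp only [Finset.mem_insert, Finset.mem_singleton] at hr
              rcases hr with rfl | rfl | rfl
              · simp [hyt]
              · simp only [hgx.symm, iff_false]
                exact fun h1 => hadj h1.symm
              · simp [hgs.symm, hys]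
            obtain ⟨c, hc⟩ := h.pp _ hM.conn hM.ind x (by simp)
            have hcx : G.Adj c x := (hc.2.2 x (by simp)).mpr rfl
            have hn := near_reps h hM hT hpy hc
            have hyc : y ≠ c := by
              rintro rfl
              exact hadj hcx.symm
            exact ⟨c, hcx.symm, hn.adj hyc⟩
    by_cases hI : Ind G {x, c, y}
    · have hM := hA x c y hxc hyc.symm hxy hadj hI
      have hset : ({x, c, y} : Finset V) = {c, x, y} := Finset.insert_comm _ _ _
      rw [hset] at hM
      exact unique_of_MM h hM hxc.ne' hyc.ne' (Or.inl (Or.inr hxc.symm))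
    · unfold Ind at hI
      push Not at hI
      obtain ⟨F, hF, hFf⟩ := hI
      have hntxc : ¬ Twins G x c := pair_not_twins hyc.symm hxy hadj
      have hntyc : ¬ Twins G y c := pair_not_twins hxc.symm hxy.symm (fun h1 => hadj h1.symm)
      have hFmem : ∀ t ∈ F, t = x ∨ t = c ∨ t = y := by
        intro t ht
        have := hF ht
        simpa only [Finset.mem_insert, Finset.mem_singleton] using this
      have hyF : y ∈ F := by
        by_contra hyF
        apply ind_pair h hxc hntxc F _ hFf
        intro t ht
        simp only [Finset.mem_insert, Finset.mem_singleton]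
        rcases hFmem t ht with h1 | h1 | h1
        · exact Or.inl h1
        · exact Or.inr h1
        · rw [h1] at ht; exact absurd ht hyF
      have hxF : x ∈ F := by
        by_contra hxF
        apply ind_pair h hyc hntyc F _ hFf
        intro t ht
        simp only [Finset.mem_insert, Finset.mem_singleton]
        rcases hFmem t ht with h1 | h1 | h1
        · rw [h1] at ht; exact absurd ht hxF
        · exact Or.inr h1
        · exact Or.inl h1
      have hcF : c ∈ F := by
        obtain ⟨t, ht, htx, hxt⟩ := hFf.other h hxF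
        rcases hFmem t ht with h1 | h1 | h1
        · exact absurd h1 htx
        · rw [← h1]; exact ht
        · rw [h1] at hxt; exact absurd hxt hadj
      obtain ⟨z0, hz0x, hz0c, huniq⟩ := hadjc x c hxc hntxc
      have hnotF : ∀ z, z ≠ x → z ≠ c → z ≠ y → z ∉ F := by
        intro z h1 h2 h3 h4
        rcases hFmem z h4 with h5 | h5 | h5
        · exact h1 h5
        · exact h2 h5
        · exact h3 h5
      refine ⟨z0, hz0x, ?_, ?_⟩
      · intro hn
        have hz0y : z0 ≠ y := by
          rintro rfl
          exact hz0c (Or.inr hyc)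
        apply hFf.2 y z0
        refine ⟨hnotF z0 (fun h1 => hz0x (Or.inl h1)) (fun h1 => hz0c (Or.inl h1)) hz0y, hyF, ?_⟩
        intro t ht
        rcases hFmem t ht with rfl | rfl | rfl
        · simp only [hxy, iff_false]
          exact fun h1 => hz0x (Or.inr h1)
        · simp only [hyc.ne', iff_false]
          exact fun h1 => hz0c (Or.inr h1)
        · simp [hn.adj hz0y]
      · intro z hzx hzy
        apply huniq z hzx
        intro hn
        have hzc : z ≠ c := by
          rintro rfl
          exact hzx (Or.inr hxc.symm)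
        apply hFf.2 c z
        refine ⟨hnotF z (fun h1 => hzx (Or.inl h1)) hzc (fun h1 => hzy (Or.inl h1)), hcF, ?_⟩
        intro t ht
        rcases hFmem t ht with rfl | rfl | rfl
        · simp only [hxc.ne, iff_false]
          exact fun h1 => hzx (Or.inr h1)
        · simp [hn.adj hzc]
        · simp only [hyc.ne, iff_false]
          exact fun h1 => hzy (Or.inr h1)

/-- Step 15 -/
theorem step15 (h : Nice G) (hnc : ∃ x y : V, x ≠ y ∧ ¬ G.Adj x y)
    (hD : ∀ x y : V, ¬ Twins G x y →
      ∃ z0, ¬ near G z0 x ∧ ¬ near G z0 y ∧ ∀ z, ¬ near G z x → ¬ near G z y → Twins G z z0) :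
    False := by
  classical
  let S : Setoid V := ⟨Twins G, ⟨fun x z => Iff.rfl, fun h => h.symm',
    fun h1 h2 z => (h1 z).trans (h2 z)⟩⟩
  let Q := Quotient S
  have hout : ∀ x : V, Twins G (Quotient.mk S x).out x := fun x => Quotient.mk_out (s := S) x
  have hnear : ∀ x y : V, near G (Quotient.mk S x).out (Quotient.mk S y).out ↔ near G x y := by
    intro x y
    rw [hout y _, near_comm, hout x _, near_comm]
  let FG : SimpleGraph Q :=
    { Adj := fun q q' => ¬ near G q.out q'.out
      symm := ⟨fun q q' h1 h2 => h1 h2.symm⟩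
      loopless := ⟨fun q h1 => h1 (near_refl _)⟩ }
  have hfr : R91.Theorems100.Friendship FG := by
    intro q q' hqq
    have hnt : ¬ Twins G q.out q'.out := by
      intro ht
      apply hqq
      rw [← Quotient.out_eq q, ← Quotient.out_eq q']
      exact Quotient.sound ht
    obtain ⟨z0, h1, h2, h3⟩ := hD _ _ hnt
    have hcard : ∀ inst : Fintype (FG.commonNeighbors q q'), @Fintype.card _ inst = 1 := by
      intro inst
      rw [Fintype.card_eq_one_iff]
      have key : ∀ z : V, (¬ near G q.out (Quotient.mk S z).out ↔ ¬ near G z q.out) := by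
        intro z
        rw [hout z, near_comm]
      have key' : ∀ z : V, (¬ near G q'.out (Quotient.mk S z).out ↔ ¬ near G z q'.out) := by
        intro z
        rw [hout z, near_comm]
      refine ⟨⟨Quotient.mk S z0, ?_⟩, ?_⟩
      · rw [SimpleGraph.mem_commonNeighbors]
        exact ⟨(key z0).mpr h1, (key' z0).mpr h2⟩
      · rintro ⟨r, hr⟩
        rw [SimpleGraph.mem_commonNeighbors] at hr
        apply Subtype.ext
        simp only
        rw [← Quotient.out_eq r]
        apply Quotient.sound
        exact h3 _ (fun h4 => hr.1 h4.symm) (fun h4 => hr.2 h4.symm)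
    exact hcard _
  obtain ⟨a, c, hac, hnac⟩ := hnc
  have : Nonempty Q := ⟨Quotient.mk S a⟩
  obtain ⟨v, hv⟩ := R91.Theorems100.friendship_theorem hfr
  have hall : (Finset.univ.filter (fun x => Twins G x v.out)) = (Finset.univ : Finset V) := by
    apply h.conn.2 _ (Finset.subset_univ _) ⟨v.out, by
      rw [Finset.mem_filter]
      exact ⟨Finset.mem_univ _, fun z => Iff.rfl⟩⟩
    intro x hx y _ hxy
    simp only [Finset.mem_filter, Finset.mem_univ, true_and] at hx ⊢
    have h1 : near G y v.out := (hx y).mp (Or.inr hxy.symm)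
    by_contra hy
    have hne : v ≠ Quotient.mk S y := by
      rintro rfl
      exact hy (hout y).symm'
    have h2 := hv _ hne
    apply h2
    rw [hout y]
    exact h1.symm
  have h1 : ∀ x, Twins G x v.out := by
    intro x
    have : x ∈ (Finset.univ.filter (fun x => Twins G x v.out)) := by rw [hall]; simp
    simpa using this
  have h2 : near G a c := by
    rw [h1 c a, ← h1 a a]
    exact near_refl a
  exact hnac (h2.adj hac)

end

theorem noP3 : ∀ n : ℕ, ∀ (V : Type u) [Fintype V] [DecidableEq V] (G : SimpleGraph V),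
    Fintype.card V = n → Nice G → ∀ a b c : V, G.Adj a b → G.Adj b c → a ≠ c → ¬ G.Adj a c →
      ¬ Ind G {a, b, c} := by
  intro n
  induction n using Nat.strong_induction_on with
  | _ n ih =>
  intro V _ _ G hcard h a b c hab hbc hac hnac hI
  have hnc : ∃ x y : V, x ≠ y ∧ ¬ G.Adj x y := ⟨a, c, hac, hnac⟩
  have hA : ∀ a b c : V, G.Adj a b → G.Adj b c → a ≠ c → ¬ G.Adj a c →
      Ind G {a, b, c} → MM G {a, b, c} := by
    intro a b c hab hbc hac hnac hI
    apply path_MM h hnc _ hab hbc hac hnac hI
    intro K hK hN a' b' c' h1 h2 h3 h4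
    have hcK : Fintype.card {x // x ∈ K} = K.card := Fintype.card_coe K
    exact ih K.card (by rw [← hcard]; exact hK) {x // x ∈ K} (HH G K) hcK hN a' b' c' h1 h2 h3 h4
  have hB : ∀ e f : V, e ≠ f → ¬ MM G {e, f} := fun e f hef =>
    no_MM_two h hab hbc hac hnac hI hef
  exact step15 h hnc (fun x y hxy => step14 h hA hB hxy)

end R91.PSD
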