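import Mathlib
import Pool.Agent.R91.PSD.NoP3

/-!
# Step 16: the structure of the graph
-/

set_option linter.unusedSectionVars false

namespace R91.PSD

universe u

variable {V : Type u} [Fintype V] [DecidableEq V] {G : SimpleGraph V}

theorem path_fort (h : Nice G) {x c y : V} (hxc : G.Adj x c) (hcy : G.Adj c y) (hxy : x ≠ y)
    (hadj : ¬ G.Adj x y) : Fort G {x, c, y} := by
  have hI : ¬ Ind G {x, c, y} := noP3 _ V G rfl h x c y hxc hcy hxy hadj
  have hyc := hcy.symm
  unfold Ind at hI
  push Not at hI
  obtain ⟨F, hF, hFf⟩ := hI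
  have hntxc : ¬ Twins G x c := pair_not_twins hyc.symm hxy hadj
  have hntyc : ¬ Twins G y c := pair_not_twins hxc.symm hxy.symm (fun h1 => hadj h1.symm)
  have hFmem : ∀ t ∈ F, t = x ∨ t = c ∨ t = y := by
    intro t ht
    have := hF ht
    simpa only [Finset.mem_insert, Finset.mem_singleton] using this
  have hyF : y ∈ F := by
    by_contra hyF
    apply ind_pair h hxc hntxc F _ hFf
    intro t ht
    simp only [Finset.mem_insert, Finset.mem_singleton]
    rcases hFmem t ht with h1 | h1 | h1
    · exact Or.inl h1
    · exact Or.inr h1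
    · rw [h1] at ht; exact absurd ht hyF
  have hxF : x ∈ F := by
    by_contra hxF
    apply ind_pair h hyc hntyc F _ hFf
    intro t ht
    simp only [Finset.mem_insert, Finset.mem_singleton]
    rcases hFmem t ht with h1 | h1 | h1
    · rw [h1] at ht; exact absurd ht hxF
    · exact Or.inr h1
    · exact Or.inl h1
  have hcF : c ∈ F := by
    obtain ⟨t, ht, htx, hxt⟩ := hFf.other h hxF
    rcases hFmem t ht with h1 | h1 | h1
    · exact absurd h1 htx
    · rw [← h1]; exact ht
    · rw [h1] at hxt; exact absurd hxt hadj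
  have : F = {x, c, y} := by
    ext t
    simp only [Finset.mem_insert, Finset.mem_singleton]
    constructor
    · exact hFmem t
    · rintro (h1 | h1 | h1)
      · rw [h1]; exact hxF
      · rw [h1]; exact hcF
      · rw [h1]; exact hyF
  rw [← this]; exact hFf

/-- a vertex adjacent to the middle of an induced path is adjacent to an end -/
theorem path_mid (h : Nice G) {x c y z : V} (hxc : G.Adj x c) (hcy : G.Adj c y) (hxy : x ≠ y)
    (hadj : ¬ G.Adj x y) (hzc : G.Adj z c) (hzx : z ≠ x) (hzy : z ≠ y) (hzx' : ¬ G.Adj z x)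
    (hzy' : ¬ G.Adj z y) : False := by
  apply (path_fort h hxc hcy hxy hadj).2 c z
  refine ⟨by simp [hzx, hzy, hzc.ne], by simp, ?_⟩
  intro t ht
  simp only [Finset.mem_insert, Finset.mem_singleton] at ht
  rcases ht with rfl | rfl | rfl
  · simp [hzx', hxc.ne]
  · simp [hzc]
  · simp [hzy', hcy.ne']

/-- there is no induced path on four vertices -/
theorem path_end (h : Nice G) {x c y z : V} (hxc : G.Adj x c) (hcy : G.Adj c y) (hxy : x ≠ y)
    (hadj : ¬ G.Adj x y) (hzy : G.Adj z y) (hzc' : ¬ G.Adj z c)
    (hzx' : ¬ G.Adj z x) : False := by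
  apply (path_fort h hxc hcy hxy hadj).2 y z
  have hzx : z ≠ x := by rintro rfl; exact hadj hzy
  have hzc : z ≠ c := by rintro rfl; exact hzx' hxc.symm
  refine ⟨by simp [hzx, hzc, hzy.ne], by simp, ?_⟩
  intro t ht
  simp only [Finset.mem_insert, Finset.mem_singleton] at ht
  rcases ht with rfl | rfl | rfl
  · simp [hzx', hxy]
  · simp [hzc', hcy.ne]
  · simp [hzy]

theorem common_nbr (h : Nice G) {u v : V} (huv : u ≠ v) (hadj : ¬ G.Adj u v) :
    ∃ c, G.Adj u c ∧ G.Adj v c := by
  classical
  by_contra hcon
  push Not at hcon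
  have hall : (Finset.univ.filter (fun z => near G z u ∨ ∃ c, G.Adj u c ∧ G.Adj z c))
      = (Finset.univ : Finset V) := by
    apply h.conn.2 _ (Finset.subset_univ _) ⟨u, by simp [near_refl]⟩
    intro x hx y _ hxy
    simp only [Finset.mem_filter, Finset.mem_univ, true_and] at hx ⊢
    by_contra hy
    push Not at hy
    obtain ⟨hy1, hy2⟩ := hy
    rcases hx with hx | ⟨c, huc, hxc⟩
    · rcases hx with hx | hx
      · subst hx
        exact hy1 (Or.inr hxy.symm)
      · exact hy2 x hx.symm hxy.symm
    · by_cases hxu : near G x u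
      · rcases hxu with hx | hx
        · subst hx
          exact hy1 (Or.inr hxy.symm)
        · exact hy2 x hx.symm hxy.symm
      · have hux : u ≠ x := fun h1 => hxu (Or.inl h1.symm)
        have hux' : ¬ G.Adj u x := fun h1 => hxu (Or.inr h1.symm)
        exact path_end h huc hxc.symm hux hux' hxy.symm (hy2 c huc)
          (fun h1 => hy1 (Or.inr h1))
  have hv : v ∈ (Finset.univ.filter (fun z => near G z u ∨ ∃ c, G.Adj u c ∧ G.Adj z c)) := by
    rw [hall]; simp
  simp only [Finset.mem_filter, Finset.mem_univ, true_and] at hv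
  rcases hv with hv | ⟨c, h1, h2⟩
  · exact hadj (hv.symm.adj huv)
  · exact hcon c h1 h2

theorem no_indep (h : Nice G) {v z z' : V} (h1 : ¬ near G v z) (h2 : ¬ near G v z')
    (h3 : ¬ near G z z') : False := by
  have e1 : v ≠ z := fun h => h1 (Or.inl h)
  have e2 : v ≠ z' := fun h => h2 (Or.inl h)
  have e3 : z ≠ z' := fun h => h3 (Or.inl h)
  have a1 : ¬ G.Adj v z := fun h => h1 (Or.inr h)
  have a2 : ¬ G.Adj v z' := fun h => h2 (Or.inr h)
  have a3 : ¬ G.Adj z z' := fun h => h3 (Or.inr h)
  obtain ⟨c, hvc, hzc⟩ := common_nbr h e1 a1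
  obtain ⟨c', hvc', hzc'⟩ := common_nbr h e2 a2
  have b1 : ¬ G.Adj z' c := by
    intro h4
    exact path_mid h hvc hzc.symm e1 a1 h4 e2.symm e3.symm (fun h => a2 h.symm)
      (fun h => a3 h.symm)
  have b2 : ¬ G.Adj z c' := by
    intro h4
    exact path_mid h hvc' hzc'.symm e2 a2 h4 e1.symm e3 (fun h => a1 h.symm) a3
  have hcc' : c ≠ c' := by
    rintro rfl
    exact b1 hzc'
  by_cases hadj : G.Adj c c'
  · -- z - c - c' - z'
    have hzc'ne : z ≠ c' := by
      rintro rfl
      exact a1 hvc'
    exact path_end h hzc hadj hzc'ne b2 hzc' b1 (fun h => a3 h.symm)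
  · -- z - c - v - c'
    exact path_end h hzc hvc.symm e1.symm (fun h => a1 h.symm) hvc'.symm
      (fun h => hadj h.symm) (fun h => b2 h.symm)

theorem far_iff (h : Nice G) {p v : V} (hpv : ¬ near G p v) (y : V) :
    ¬ near G y p ↔ Twins G y v := by
  constructor
  · intro hy
    have hyv : near G y v := by
      by_contra hyv
      exact no_indep h hyv hy (fun h1 => hpv h1.symm)
    -- one direction for both
    have key : ∀ a b : V, ¬ near G a p → ¬ near G b p → near G a b → ∀ x, near G x a →
        near G x b := by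
      intro a b ha hb hab x hxa
      by_contra hxb
      have hxb' : x ≠ b := fun h1 => hxb (Or.inl h1)
      have hxb'' : ¬ G.Adj x b := fun h1 => hxb (Or.inr h1)
      have hxa' : x ≠ a := by
        rintro rfl
        exact hxb hab
      have hab' : a ≠ b := by
        rintro rfl
        exact hxb hxa
      have h1 : G.Adj x a := hxa.adj hxa'
      have h2 : G.Adj a b := hab.adj hab'
      have hxp : near G x p := by
        by_contra hxp
        exact no_indep h hxb hxp hb
      have hxp' : x ≠ p := by
        rintro rfl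
        exact ha (Or.inr h1.symm)
      have h3 : G.Adj x p := hxp.adj hxp'
      exact path_end h h2.symm h1.symm hxb'.symm (fun h => hxb'' h.symm) h3.symm
        (fun h => ha (Or.inr h.symm)) (fun h => hb (Or.inr h.symm))
    have hv : ¬ near G v p := fun h1 => hpv h1.symm
    intro x
    exact ⟨key y v hy hv hyv x, key v y hv hy hyv.symm x⟩
  · intro ht h1
    exact hpv ((ht p).mp h1.symm)

theorem exists_far (h : Nice G) (hnc : ∃ x y : V, x ≠ y ∧ ¬ G.Adj x y) (v : V) :
    ∃ p, ¬ near G p v := by
  by_contra hcon
  push Not at hcon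
  obtain ⟨x, y, hxy, hadj⟩ := hnc
  have hvx : v ≠ x := by
    rintro rfl
    exact hadj ((hcon y).adj hxy.symm).symm
  have hvxa : G.Adj v x := ((hcon x).adj hvx.symm).symm
  have hnt : ¬ Twins G v x := by
    intro ht
    have h1 := (ht y).mp (hcon y)
    exact hadj (h1.adj hxy.symm).symm
  obtain ⟨b, hb⟩ := h.pp _ (conn_pair hvxa) (ind_pair h hvxa hnt) x (by simp)
  have hbv : b ≠ v := by rintro rfl; exact hb.1 (by simp)
  have := (hb.2.2 v (by simp)).mp ((hcon b).adj hbv)
  exact hvx this

/-- the labelled structure theorem -/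
theorem structure_thm (h : Nice G) (hnc : ∃ x y : V, x ≠ y ∧ ¬ G.Adj x y) :
    ∃ t : ℕ, 2 ≤ t ∧ ∃ c : V → Fin t × Bool, Function.Surjective c ∧
      ∀ x y, G.Adj x y ↔ x ≠ y ∧ ((c x).1 ≠ (c y).1 ∨ c x = c y) := by
  classical
  choose far hfar using exists_far h hnc
  -- far v is far from v
  have hfar' : ∀ v y, ¬ near G y (far v) ↔ Twins G y v := fun v y => far_iff h (hfar v) y
  have hfar2 : ∀ v y, ¬ near G y v ↔ Twins G y (far v) := fun v y =>
    far_iff h (fun h1 => hfar v h1.symm) y
  have htt : ∀ {x y z : V}, Twins G x y → Twins G y z → Twins G x z :=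
    fun h1 h2 w => (h1 w).trans (h2 w)
  have hff : ∀ {x y z : V}, ¬ near G x y → ¬ near G y z → Twins G x z := by
    intro x y z h1 h2
    exact htt ((hfar2 y x).mp h1) ((hfar2 y z).mp (fun h3 => h2 h3.symm)).symm'
  have htf : ∀ {x y z : V}, Twins G x y → ¬ near G y z → ¬ near G x z := by
    intro x y z h1 h2 h3
    exact h2 (((h1 z).mp h3.symm).symm)
  let S : Setoid V :=
    { r := fun x y => Twins G x y ∨ ¬ near G x y
      iseqv := by
        refine ⟨fun x => Or.inl (fun z => Iff.rfl), ?_, ?_⟩
        · rintro x y (h1 | h1)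
          · exact Or.inl h1.symm'
          · exact Or.inr (fun h2 => h1 h2.symm)
        · rintro x y z (h1 | h1) (h2 | h2)
          · exact Or.inl (htt h1 h2)
          · exact Or.inr (htf h1 h2)
          · exact Or.inr (fun h3 => htf h2.symm' (fun h4 => h1 h4.symm) h3.symm)
          · exact Or.inl (hff h1 h2) }
  let Q := Quotient S
  let e : Q ≃ Fin (Fintype.card Q) := Fintype.equivFin Q
  have hrep : ∀ x : V, S.r (Quotient.mk S x).out x := fun x => Quotient.mk_out (s := S) x
  let c : V → Fin (Fintype.card Q) × Bool := fun x =>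
    (e (Quotient.mk S x), decide (Twins G x (Quotient.mk S x).out))
  have hadj : ∀ x y, G.Adj x y ↔ x ≠ y ∧ ((c x).1 ≠ (c y).1 ∨ c x = c y) := by
    intro x y
    by_cases hq : Quotient.mk S x = Quotient.mk S y
    · have hr : S.r x y := Quotient.exact hq
      have h1 : (c x).1 = (c y).1 := by simp only [c, hq]
      have h2 : c x = c y ↔ (Twins G x (Quotient.mk S y).out ↔ Twins G y (Quotient.mk S y).out) := by
        simp only [c, hq, Prod.mk.injEq, true_and, decide_eq_decide]
      have hx : Twins G (Quotient.mk S y).out x ∨ ¬ near G (Quotient.mk S y).out x := by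
        rw [← hq]; exact hrep x
      have hy : Twins G (Quotient.mk S y).out y ∨ ¬ near G (Quotient.mk S y).out y := hrep y
      rw [h2]
      constructor
      · intro hxy
        refine ⟨hxy.ne, Or.inr ?_⟩
        have ht : Twins G x y := by
          rcases hr with h3 | h3
          · exact h3
          · exact absurd (Or.inr hxy) h3
        exact ⟨fun h3 => htt ht.symm' h3, fun h3 => htt ht h3⟩
      · rintro ⟨hne, h3⟩
        rcases h3 with h3 | h3
        · exact absurd h1 h3
        · have ht : Twins G x y := by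
            by_cases h4 : Twins G x (Quotient.mk S y).out
            · exact htt h4 (h3.mp h4).symm'
            · have h5 : ¬ Twins G y (Quotient.mk S y).out := fun h6 => h4 (h3.mpr h6)
              have h6 : ¬ near G (Quotient.mk S y).out x :=
                hx.resolve_left (fun h7 => h4 h7.symm')
              have h7 : ¬ near G (Quotient.mk S y).out y :=
                hy.resolve_left (fun h7 => h5 h7.symm')
              exact hff (fun h8 => h6 h8.symm) h7
          exact ht.near.adj hne
    · have h1 : (c x).1 ≠ (c y).1 := by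
        intro h2
        exact hq (e.injective h2)
      constructor
      · intro hxy
        exact ⟨hxy.ne, Or.inl h1⟩
      · rintro ⟨hne, -⟩
        by_contra h2
        apply hq
        apply Quotient.sound
        right
        rintro (h3 | h3)
        · exact hne h3
        · exact h2 h3
  have hsurj : Function.Surjective c := by
    rintro ⟨i, b⟩
    obtain ⟨q, rfl⟩ := e.surjective i
    have hqo : Quotient.mk S q.out = q := Quotient.out_eq q
    cases b with
    | true =>
      refine ⟨q.out, ?_⟩
      simp only [c, hqo, Prod.mk.injEq, true_and, decide_eq_true_eq]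
      exact fun z => Iff.rfl
    | false =>
      have h1 : Quotient.mk S (far q.out) = q := by
        rw [← hqo]
        apply Quotient.sound
        right
        rw [hqo]
        exact hfar q.out
      refine ⟨far q.out, ?_⟩
      simp only [c, h1, Prod.mk.injEq, true_and, decide_eq_false_iff_not]
      intro ht
      exact hfar q.out ht.near
  refine ⟨Fintype.card Q, ?_, c, hsurj, hadj⟩
  by_contra hlt
  push Not at hlt
  -- a single block: contradiction with connectedness
  obtain ⟨x0, y0, hxy0, -⟩ := hnc
  have hone : ∀ x y, (c x).1 = (c y).1 := by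
    intro x y
    apply Fin.ext
    have h1 := (c x).1.2
    have h2 := (c y).1.2
    omega
  have hall : (Finset.univ.filter (fun x => c x = c x0)) = (Finset.univ : Finset V) := by
    apply h.conn.2 _ (Finset.subset_univ _) ⟨x0, by simp⟩
    intro x hx y _ hxy
    simp only [Finset.mem_filter, Finset.mem_univ, true_and] at hx ⊢
    have h1 := (hadj x y).mp hxy
    rcases h1.2 with h2 | h2
    · exact absurd (hone x y) h2
    · rw [← h2, hx]
  obtain ⟨y, hy⟩ := hsurj ((c x0).1, !(c x0).2)
  have : y ∈ (Finset.univ.filter (fun x => c x = c x0)) := by rw [hall]; simp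
  simp only [Finset.mem_filter, Finset.mem_univ, true_and] at this
  rw [hy] at this
  have h3 := congrArg Prod.snd this
  simp at h3

end R91.PSD
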